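import Pool.Agent.J6H86.LH.Orbit

set_option autoImplicit false

/-! Nullstellensatz certificates, integral models and scaling. -/

namespace Pool.Agent.J6H86.LH

open MvPolynomial

variable {K : Type*} [Field K] {σ τ ι : Type*}

lemma eval_scale (G : MvPolynomial σ K) (d : ℕ) (hG : G.IsHomogeneous d) (c : K) (x : σ → K) :
    eval (fun l => c * x l) G = c ^ d * eval x G := by
  classical
  rw [eval_eq, eval_eq, Finset.mul_sum]
  apply Finset.sum_congr rfl
  intro κ hκ
  have hdeg : κ.degree = d := by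
    have := hG (mem_support_iff.1 hκ)
    rw [Finsupp.degree_eq_weight_one]; exact this
  rw [Finset.prod_congr rfl fun i _ => mul_pow c (x i) (κ i), Finset.prod_mul_distrib,
    Finset.prod_pow_eq_pow_sum]
  have h1 : ∑ i ∈ κ.support, κ i = d := hdeg
  rw [h1]
  ring

lemma eval_scale_mem {P : Ideal (MvPolynomial σ K)}
    (hP : ∀ G ∈ P, ∀ n, homogeneousComponent n G ∈ P) (x : σ → K)
    (hx : ∀ G ∈ P, eval x G = 0) (c : K) (G : MvPolynomial σ K) (hG : G ∈ P) :
    eval (fun l => c * x l) G = 0 := by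
  rw [← sum_homogeneousComponent G, map_sum]
  apply Finset.sum_eq_zero
  intro i _
  rw [eval_scale _ i (homogeneousComponent_isHomogeneous i G), hx _ (hP G hG i), mul_zero]

lemma exists_cert [Finite σ] [Fintype τ] [Fintype ι] (P : Ideal (MvPolynomial σ K))
    (F : ι → τ → MvPolynomial σ K)
    (h : ∀ p : σ → AlgebraicClosure K, p ≠ 0 → (∀ G ∈ P, aeval p G = 0) →
      ∃ i a, aeval p (F i a) ≠ 0) (l : σ) :
    ∃ (e : ℕ) (Q : ι × τ → MvPolynomial σ K), X l ^ e - ∑ x, Q x * F x.1 x.2 ∈ P := by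
  classical
  set I : Ideal (MvPolynomial σ K) := P ⊔ Ideal.span (Set.range fun x : ι × τ => F x.1 x.2)
    with hI
  have h1 : (X l : MvPolynomial σ K) ∈ vanishingIdeal K (zeroLocus (AlgebraicClosure K) I) := by
    intro w hw
    have h2 : w = 0 := by
      by_contra hne
      obtain ⟨i, a, hia⟩ := h w hne fun G hG => hw G (Ideal.mem_sup_left hG)
      exact hia (hw _ (Ideal.mem_sup_right (Ideal.subset_span ⟨(i, a), rfl⟩)))
    rw [h2, aeval_X]
    rfl
  rw [vanishingIdeal_zeroLocus_eq_radical] at h1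
  obtain ⟨e, he⟩ := h1
  rw [hI, Submodule.mem_sup] at he
  obtain ⟨R, hR, T, hT, hRT⟩ := he
  obtain ⟨Q, hQ⟩ := Ideal.mem_span_range_iff_exists_fun.1 hT
  refine ⟨e, Q, ?_⟩
  rw [hQ, ← hRT]
  simpa using hR

/-- integral model of a polynomial -/
lemma exists_lift (O : Subring K) (G : MvPolynomial σ K) (hG : ∀ c ∈ G.coeffs, c ∈ O) :
    ∃ G' : MvPolynomial σ O, map O.subtype G' = G := by
  have h1 : G ∈ Set.range (MvPolynomial.map O.subtype) := by
    rw [mem_range_map_iff_coeffs_subset]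
    intro c hc
    exact ⟨⟨c, hG c hc⟩, rfl⟩
  exact h1

lemma eval_coe {O : Subring K} (G' : MvPolynomial σ O) (X : σ → O) :
    ((eval X G' : O) : K) = eval (fun l => (X l : K)) (map O.subtype G') := by
  rw [eval_map]
  exact eval₂_comp_left O.subtype (RingHom.id O) X G'

end Pool.Agent.J6H86.LH
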