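import Pool.Agent.J6H86.LH.Core

set_option autoImplicit false

/-! The linear lower bound for heights: the final estimate. -/

namespace Pool.Agent.J6H86.LH

open Height AdmissibleAbsValues Function Finset Filter
open scoped Nat

/-- The logarithmic form of the determinant inequality. -/
lemma log_form (J : Finset ℕ) (N D w t : ℕ) (ht : 0 < t) (η c ρ : ℝ) (hη : 0 < η)
    (hc : 1 ≤ c) (hρ : 0 < ρ) (hρ1 : ρ < 1) (H : ℕ → ℝ) (hH : ∀ j, 1 ≤ H j)
    (h : 1 ≤ ((J.card)! * ∏ j ∈ J, ((1 / η) ^ N * (1 + η) ^ j)) ^ w *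
        (∏ j ∈ J, (c ^ N * ρ ^ (j / (2 * t)))) * ∏ j ∈ J, H j ^ D) :
    0 ≤ w * (J.card * Real.log J.card + J.card * (N * Real.log (1 / η)) +
        η * ∑ j ∈ J, (j : ℝ)) + J.card * (N * Real.log c) +
        (J.card * (-Real.log ρ) - (-Real.log ρ) / (2 * t) * ∑ j ∈ J, (j : ℝ)) +
        D * ∑ j ∈ J, Real.log (H j) := by
  have hL : 0 < -Real.log ρ := by
    have := Real.log_neg hρ hρ1
    linarith
  have h1 := Real.log_le_log one_pos h
  rw [Real.log_one] at h1
  have hX : 0 < ((J.card)! : ℝ) * ∏ j ∈ J, ((1 / η) ^ N * (1 + η) ^ j) := by positivity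
  have hY : 0 < ∏ j ∈ J, (c ^ N * ρ ^ (j / (2 * t))) := by
    apply prod_pos; intro j _; positivity
  have hZ : 0 < ∏ j ∈ J, H j ^ D := by
    apply prod_pos; intro j _
    have := hH j
    positivity
  rw [Real.log_mul (by positivity) hZ.ne', Real.log_mul (by positivity) hY.ne', Real.log_pow,
    Real.log_mul (by positivity) (by positivity)] at h1
  have e1 : Real.log (∏ j ∈ J, ((1 / η) ^ N * (1 + η) ^ j)) =
      J.card * (N * Real.log (1 / η)) + Real.log (1 + η) * ∑ j ∈ J, (j : ℝ) := by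
    rw [Real.log_prod (fun j _ => by positivity)]
    rw [sum_congr rfl fun j _ => by
      rw [Real.log_mul (by positivity) (by positivity), Real.log_pow, Real.log_pow]]
    rw [sum_add_distrib, sum_const, nsmul_eq_mul, mul_sum]
    congr 1
    exact sum_congr rfl fun j _ => mul_comm _ _
  have e2 : Real.log (∏ j ∈ J, (c ^ N * ρ ^ (j / (2 * t)))) ≤
      J.card * (N * Real.log c) +
        (J.card * (-Real.log ρ) - (-Real.log ρ) / (2 * t) * ∑ j ∈ J, (j : ℝ)) := by
    rw [Real.log_prod (fun j _ => by positivity)]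
    have h2 : ∀ j ∈ J, Real.log (c ^ N * ρ ^ (j / (2 * t))) ≤
        N * Real.log c + ((-Real.log ρ) - (-Real.log ρ) / (2 * t) * (j : ℝ)) := by
      intro j _
      rw [Real.log_mul (by positivity) (by positivity), Real.log_pow, Real.log_pow]
      have h3 : j ≤ 2 * t * (j / (2 * t)) + 2 * t := by
        have h4 := Nat.div_add_mod j (2 * t)
        have h5 := Nat.mod_lt j (show 0 < 2 * t by omega)
        omega
      have h3' : (j : ℝ) ≤ 2 * t * ((j / (2 * t) : ℕ) : ℝ) + 2 * t := by exact_mod_cast h3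
      have htr : (0 : ℝ) < 2 * t := by positivity
      have h6 : (-Real.log ρ) / (2 * t) * (j : ℝ) ≤
          (-Real.log ρ) * ((j / (2 * t) : ℕ) : ℝ) + (-Real.log ρ) := by
        calc (-Real.log ρ) / (2 * t) * (j : ℝ) ≤
              (-Real.log ρ) / (2 * t) * (2 * t * ((j / (2 * t) : ℕ) : ℝ) + 2 * t) :=
              mul_le_mul_of_nonneg_left h3' (by positivity)
          _ = _ := by field_simp; ring
      linarith
    refine (sum_le_sum h2).trans_eq ?_
    rw [sum_add_distrib, sum_const, nsmul_eq_mul, sum_sub_distrib, sum_const, nsmul_eq_mul,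
      mul_sum]
  have e3 : Real.log (∏ j ∈ J, H j ^ D) = D * ∑ j ∈ J, Real.log (H j) := by
    rw [Real.log_prod (fun j _ => by have := hH j; positivity), mul_sum]
    exact sum_congr rfl fun j _ => Real.log_pow _ _
  have e4 : Real.log ((J.card)! : ℝ) ≤ J.card * Real.log J.card := by
    rw [← Real.log_pow]
    apply Real.log_le_log (by positivity)
    exact_mod_cast Nat.factorial_le_pow J.card
  have e5 : Real.log (1 + η) ≤ η := by
    have := Real.log_le_sub_one_of_pos (show 0 < 1 + η by linarith)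
    linarith
  have e6 : Real.log (1 + η) * ∑ j ∈ J, (j : ℝ) ≤ η * ∑ j ∈ J, (j : ℝ) :=
    mul_le_mul_of_nonneg_right e5 (sum_nonneg fun j _ => Nat.cast_nonneg _)
  rw [e1, e3] at h1
  have e7 : (w : ℝ) * (Real.log ((J.card)! : ℝ) + (J.card * (N * Real.log (1 / η)) +
      Real.log (1 + η) * ∑ j ∈ J, (j : ℝ))) ≤
      w * (J.card * Real.log J.card + J.card * (N * Real.log (1 / η)) +
        η * ∑ j ∈ J, (j : ℝ)) :=
    mul_le_mul_of_nonneg_left (by linarith) (Nat.cast_nonneg _)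
  linarith

lemma final_arith {w a η M S N D L ε H1 l1 lc lM sh : ℝ} (ha : 0 < a)
    (hM1 : 1 ≤ M) (hS0 : 0 ≤ S) (hN0 : 0 ≤ N) (hD0 : 0 ≤ D) (hηw : w * η ≤ a / 4)
    (hDε : D * ε ≤ a / 4) (hD' : w * l1 + lc ≤ (D + 1) * (a / 8)) (hMN' : M = N * (D + 1))
    (hN2 : w * lM ≤ a / 64 * M) (hN3 : L + a / 4 ≤ a / 64 * M) (hN4 : D * H1 ≤ a / 64 * M)
    (h1 : 0 ≤ w * (M * lM + M * (N * l1) + η * S) + M * (N * lc) + (M * L - a * S) + D * sh)
    (h2 : sh ≤ H1 + ε * S) (h3 : M * M ≤ 2 * S + M) : False := by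
  have k1 : N * (w * l1 + lc) ≤ a / 8 * M := by
    calc N * (w * l1 + lc) ≤ N * ((D + 1) * (a / 8)) := mul_le_mul_of_nonneg_left hD' hN0
      _ = a / 8 * M := by rw [hMN']; ring
  have k2 : D * sh ≤ D * H1 + a / 4 * S := by
    calc D * sh ≤ D * (H1 + ε * S) := mul_le_mul_of_nonneg_left h2 hD0
      _ = D * H1 + (D * ε) * S := by ring
      _ ≤ _ := by
        have := mul_le_mul_of_nonneg_right hDε hS0
        linarith
  have k3 : w * (η * S) ≤ a / 4 * S := by
    calc w * (η * S) = (w * η) * S := by ring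
      _ ≤ _ := mul_le_mul_of_nonneg_right hηw hS0
  have k5 : M * (w * lM) ≤ a / 64 * (M * M) := by
    calc M * (w * lM) ≤ M * (a / 64 * M) := mul_le_mul_of_nonneg_left hN2 (by linarith)
      _ = _ := by ring
  have k6 : M * (N * (w * l1 + lc)) ≤ a / 8 * (M * M) := by
    calc M * (N * (w * l1 + lc)) ≤ M * (a / 8 * M) := mul_le_mul_of_nonneg_left k1 (by linarith)
      _ = _ := by ring
  have k7 : M * L + a / 4 * M ≤ a / 64 * (M * M) := by
    calc M * L + a / 4 * M = M * (L + a / 4) := by ring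
      _ ≤ M * (a / 64 * M) := mul_le_mul_of_nonneg_left hN3 (by linarith)
      _ = _ := by ring
  have k8 : D * H1 ≤ a / 64 * (M * M) := by
    calc D * H1 ≤ a / 64 * M := hN4
      _ = a / 64 * (M * 1) := by ring
      _ ≤ _ := by
        apply mul_le_mul_of_nonneg_left _ (by positivity)
        exact mul_le_mul_of_nonneg_left hM1 (by linarith)
  have k9 : a / 4 * (M * M) ≤ a / 2 * S + a / 4 * M := by
    calc a / 4 * (M * M) ≤ a / 4 * (2 * S + M) := mul_le_mul_of_nonneg_left h3 (by positivity)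
      _ = _ := by ring
  have k10 : 0 < a * (M * M) := by positivity
  have e1 : w * (M * lM + M * (N * l1) + η * S) + M * (N * lc) + (M * L - a * S) =
      M * (w * lM) + M * (N * (w * l1 + lc)) + w * (η * S) + M * L - a * S := by
    ring
  rw [e1] at h1
  linarith

lemma choose_N {w a L T : ℝ} (hw0 : 0 ≤ w) (ha : 0 < a) (D : ℕ) : ∃ N : ℕ, 1 ≤ N ∧
      w * Real.log ((N * (D + 1) : ℕ) : ℝ) ≤ a / 64 * ((N * (D + 1) : ℕ) : ℝ) ∧
      L + a / 4 ≤ a / 64 * ((N * (D + 1) : ℕ) : ℝ) ∧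
      T ≤ a / 64 * ((N * (D + 1) : ℕ) : ℝ) := by
  have htend : Tendsto (fun N : ℕ => ((N * (D + 1) : ℕ) : ℝ)) atTop atTop := by
    apply tendsto_natCast_atTop_atTop.comp
    exact tendsto_id.atTop_mul_const' (by omega)
  have h1 : ∀ᶠ x : ℝ in atTop, w * Real.log x ≤ a / 64 * x := by
    have h2 := Real.isLittleO_log_id_atTop.bound (show 0 < a / 64 / (w + 1) by positivity)
    filter_upwards [h2, eventually_ge_atTop 1] with x hx hx1
    have hlog : 0 ≤ Real.log x := Real.log_nonneg hx1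
    rw [Real.norm_of_nonneg hlog, id, Real.norm_of_nonneg (by linarith)] at hx
    calc w * Real.log x ≤ (w + 1) * Real.log x := by nlinarith
      _ ≤ (w + 1) * (a / 64 / (w + 1) * x) := mul_le_mul_of_nonneg_left hx (by linarith)
      _ = a / 64 * x := by field_simp
  have h3 : ∀ᶠ x : ℝ in atTop, L + a / 4 ≤ a / 64 * x :=
    (tendsto_id.const_mul_atTop (show 0 < a / 64 by positivity)).eventually_ge_atTop _
  have h4 : ∀ᶠ x : ℝ in atTop, T ≤ a / 64 * x :=
    (tendsto_id.const_mul_atTop (show 0 < a / 64 by positivity)).eventually_ge_atTop _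
  obtain ⟨N, hN⟩ := ((eventually_ge_atTop 1).and ((htend.eventually h1).and
    ((htend.eventually h3).and (htend.eventually h4)))).exists
  exact ⟨N, hN.1, hN.2.1, hN.2.2.1, hN.2.2.2⟩

variable {K : Type*} [Field K] [AdmissibleAbsValues K]

theorem core {τ : Type*} [Finite τ]
    (v₀ : AbsoluteValue K ℝ) (hv₀ : v₀ ∈ nonarchAbsVal (K := K)) (ρ c : ℝ)
    (hρ : 0 < ρ) (hρ1 : ρ < 1) (hc : 1 ≤ c) (t : ℕ) (ht : 0 < t)
    (z : ℕ → τ → K) (hz : ∀ m, z m ≠ 0) (hz0 : ∀ m, ⨆ i, v₀ (z m i) = 1) (l0 l1 : τ)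
    (Hv : ∀ D k i n m, i ≤ D → v₀ ((E t)^[n] (fun m => (m.choose k : K) *
      (z m l0 ^ (D - i) * z m l1 ^ i)) m) ≤ c ^ k * ρ ^ n)
    (Hind : ∀ (N D : ℕ) (p : Fin N × Fin (D + 1) → K),
      (∀ m, ∑ x, p x * wvec (fun m => z m l0) (fun m => z m l1) N D m x = 0) → p = 0) :
    ∃ ε : ℝ, 0 < ε ∧ ∃ᶠ m : ℕ in atTop, ε * (m : ℝ) ≤ logHeight (z m) := by
  by_contra hcon
  push Not at hcon
  set L : ℝ := -Real.log ρ with hLdef
  have hL : 0 < L := by
    have := Real.log_neg hρ hρ1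
    linarith
  set w := totalWeight K with hw
  set a : ℝ := L / (2 * t) with hadef
  have htr : (0 : ℝ) < t := by exact_mod_cast ht
  have ha : 0 < a := by positivity
  set η : ℝ := min 1 (a / (4 * (w + 1))) with hηdef
  have hw0 : (0 : ℝ) ≤ w := Nat.cast_nonneg _
  have hη : 0 < η := lt_min one_pos (by positivity)
  have hη1 : η ≤ 1 := min_le_left _ _
  have hηw : w * η ≤ a / 4 := by
    have h1 : η ≤ a / (4 * (w + 1)) := min_le_right _ _
    calc (w : ℝ) * η ≤ (w + 1) * (a / (4 * (w + 1))) :=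
          mul_le_mul (by linarith) h1 hη.le (by linarith)
      _ = a / 4 := by field_simp
  set B : ℝ := w * Real.log (1 / η) + Real.log c with hB
  obtain ⟨D, hD⟩ : ∃ D : ℕ, B / (a / 8) ≤ D := exists_nat_ge _
  have hD' : B ≤ (D + 1) * (a / 8) := by
    rw [div_le_iff₀ (by positivity)] at hD
    nlinarith
  set ε : ℝ := a / (4 * (D + 1)) with hεdef
  have hε : 0 < ε := by positivity
  have hDε : D * ε ≤ a / 4 := by
    calc (D : ℝ) * ε ≤ (D + 1) * ε := by nlinarith
      _ = a / 4 := by rw [hεdef]; field_simp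
  obtain ⟨m1, hm1⟩ := eventually_atTop.1 (hcon ε hε)
  set H1 : ℝ := ∑ m ∈ range m1, logHeight (z m) with hH1
  have hH1nn : 0 ≤ H1 := sum_nonneg fun m _ => logHeight_nonneg _
  have hsum : ∀ J : Finset ℕ, ∑ j ∈ J, logHeight (z j) ≤ H1 + ε * ∑ j ∈ J, (j : ℝ) := by
    intro J
    have h1 : ∀ j ∈ J, logHeight (z j) ≤
        (if j ∈ range m1 then logHeight (z j) else 0) + ε * (j : ℝ) := by
      intro j _
      split_ifs with hj
      · have : 0 ≤ ε * (j : ℝ) := by positivity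
        linarith
      · have := (hm1 j (by simpa using hj)).le
        linarith
    refine (sum_le_sum h1).trans ?_
    rw [sum_add_distrib, ← mul_sum]
    have h2 : ∑ j ∈ J, (if j ∈ range m1 then logHeight (z j) else 0) ≤ H1 := by
      rw [← sum_filter]
      exact sum_le_sum_of_subset_of_nonneg (fun x hx => (mem_filter.1 hx).2)
        fun _ _ _ => logHeight_nonneg _
    linarith
  -- choice of `N`
  obtain ⟨N, hN1, hN2, hN3, hN4⟩ := choose_N (w := w) (a := a) (L := L) (T := D * H1) hw0 ha D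
  obtain ⟨J, hJ, hineq⟩ := det_ineq v₀ hv₀ ρ c hρ hc t ht z hz hz0 l0 l1 Hv N D (Hind N D)
    η hη hη1
  have h1 := log_form J N D w t ht η c ρ hη hc hρ hρ1 (fun j => mulHeight (z j))
    (fun j => one_le_mulHeight _) hineq
  have h2 := hsum J
  have h3 : (J.card : ℝ) * J.card ≤ 2 * ∑ j ∈ J, (j : ℝ) + J.card := by
    have h4 : ((J.card * J.card : ℕ) : ℝ) ≤ ((2 * (∑ j ∈ J, j) + J.card : ℕ) : ℝ) :=
      Nat.cast_le.2 (sum_lower J)
    push_cast at h4
    exact h4
  set M : ℝ := (J.card : ℝ) with hM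
  set S : ℝ := ∑ j ∈ J, (j : ℝ) with hS
  have hMN : M = ((N * (D + 1) : ℕ) : ℝ) := by rw [hM, hJ]
  rw [← hMN] at hN2 hN3 hN4
  have hMN' : M = N * (D + 1) := by rw [hMN]; push_cast; ring
  have hM1 : 1 ≤ M := by
    rw [hMN]
    exact_mod_cast Nat.one_le_iff_ne_zero.2 (Nat.mul_ne_zero (by omega) (by omega))
  have hS0 : 0 ≤ S := sum_nonneg fun j _ => Nat.cast_nonneg _
  have hlogs : ∑ j ∈ J, Real.log (mulHeight (z j)) = ∑ j ∈ J, logHeight (z j) := rfl
  rw [hlogs] at h1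
  exact final_arith ha hM1 hS0 (Nat.cast_nonneg _) (Nat.cast_nonneg _) hηw hDε hD' hMN' hN2
    hN3 hN4 h1 h2 h3

end Pool.Agent.J6H86.LH
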