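import Pool.Agent.J6H86.LH.Rel

set_option autoImplicit false

/-! Logarithmic bounds for the heights of sequences which are algebraic over the index. -/

namespace Pool.Agent.J6H86.LH

open Height AdmissibleAbsValues Function Finset Filter

variable {K : Type*} [Field K] [AdmissibleAbsValues K]

lemma logHeight_le_sum {ι : Type*} [Fintype ι] (y : ι → K) :
    logHeight y ≤ ∑ i, logHeight₁ (y i) := by
  classical
  have hx : ∀ i, (![y i, 1] : Fin 2 → K) ≠ 0 := fun i h => by
    have := congrFun h 1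
    simp at this
  have h1 := logHeight_fun_prod_eq (K := K) (x := fun i : ι => (![y i, 1] : Fin 2 → K)) hx
  have h2 : ∀ i, logHeight (![y i, 1] : Fin 2 → K) = logHeight₁ (y i) := fun i =>
    (logHeight₁_eq_logHeight (y i)).symm
  rw [sum_congr rfl fun i _ => h2 i] at h1
  rw [← h1]
  let f : ι → (ι → Fin 2) := fun i j => if j = i then 0 else 1
  have h3 : y = (fun I : ι → Fin 2 => ∏ j, (![y j, 1] : Fin 2 → K) (I j)) ∘ f := by
    funext i
    simp only [comp_apply, f]
    rw [Finset.prod_eq_single i]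
    · simp
    · intro j _ hj
      simp [hj]
    · intro h
      exact absurd (mem_univ _) h
  conv_lhs => rw [h3]
  exact logHeight_comp_le f _

lemma logHeight_powers (ρ : K) (k : ℕ) (hk : 1 ≤ k) :
    logHeight (fun i : Fin k => ρ ^ (i : ℕ)) ≤ ((k : ℝ) - 1) * logHeight₁ ρ := by
  classical
  have hx : ∀ i : Fin (k - 1), (![ρ, 1] : Fin 2 → K) ≠ 0 := fun i h => by
    have := congrFun h 1
    simp at this
  have h1 := logHeight_fun_prod_eq (K := K) (x := fun _ : Fin (k - 1) => (![ρ, 1] : Fin 2 → K)) hx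
  rw [sum_const, card_univ, Fintype.card_fin, nsmul_eq_mul, ← logHeight₁_eq_logHeight,
    Nat.cast_sub hk, Nat.cast_one] at h1
  rw [← h1]
  let f : Fin k → (Fin (k - 1) → Fin 2) := fun i j => if (j : ℕ) < i then 0 else 1
  have h3 : (fun i : Fin k => ρ ^ (i : ℕ)) =
      (fun I : Fin (k - 1) → Fin 2 => ∏ j, (![ρ, 1] : Fin 2 → K) (I j)) ∘ f := by
    funext i
    simp only [comp_apply, f]
    have h4 : ∀ j : Fin (k - 1), (![ρ, 1] : Fin 2 → K) (if (j : ℕ) < i then 0 else 1) =
        if (j : ℕ) < i then ρ else 1 := by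
      intro j
      split_ifs <;> simp
    rw [prod_congr rfl fun j _ => h4 j]
    rw [Finset.prod_ite, prod_const_one, mul_one, prod_const]
    congr 1
    have h5 : (univ.filter fun j : Fin (k - 1) => (j : ℕ) < i).card = i := by
      have h6 : (univ.filter fun j : Fin (k - 1) => (j : ℕ) < i).card =
          ((Finset.range (i : ℕ))).card := by
        apply Finset.card_bij (fun (j : Fin (k - 1)) _ => (j : ℕ))
        · intro j hj
          exact Finset.mem_range.2 (mem_filter.1 hj).2
        · intro j _ j' _ h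
          exact Fin.ext h
        · intro m hm
          have hm' := Finset.mem_range.1 hm
          have hi := i.2
          exact ⟨⟨m, by omega⟩, mem_filter.2 ⟨mem_univ _, hm'⟩, rfl⟩
      rw [h6, card_range]
    exact h5.symm
  rw [h3]
  exact logHeight_comp_le f _

lemma root_bound (ρ : K) (k : ℕ) (hk : 1 ≤ k) (c : Fin k → K)
    (h : ρ ^ k = ∑ i, c i * ρ ^ (i : ℕ)) :
    logHeight₁ ρ ≤ totalWeight K * Real.log k + ∑ i, logHeight₁ (c i) := by
  classical
  have : NeZero k := ⟨by omega⟩
  let A : Fin 2 × Fin k → K := fun x => if x.1 = 0 then c x.2 else if x.2 = 0 then 1 else 0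
  have h1 := logHeight_linearMap_apply_le A (fun i : Fin k => ρ ^ (i : ℕ))
  have h2 : (fun j : Fin 2 => ∑ i, A (j, i) * ρ ^ (i : ℕ)) = ![ρ ^ k, 1] := by
    funext j
    fin_cases j
    · simp [A, h]
    · simp [A]
  rw [h2, ← logHeight₁_eq_logHeight, logHeight₁_pow] at h1
  have h3 : logHeight A ≤ ∑ i, logHeight₁ (c i) := by
    refine (logHeight_le_sum A).trans_eq ?_
    rw [Fintype.sum_prod_type, Fin.sum_univ_two]
    have e1 : ∑ y, logHeight₁ (A (0, y)) = ∑ i, logHeight₁ (c i) := by simp [A]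
    have e2 : ∑ y, logHeight₁ (A (1, y)) = 0 := by
      apply sum_eq_zero
      intro y _
      simp only [A]
      rw [if_neg (by decide)]
      split_ifs <;> simp
    rw [e1, e2, add_zero]
  have h4 := logHeight_powers ρ k hk
  rw [Nat.card_fin] at h1
  linarith

/-- at most logarithmic growth -/
def Lg (f : ℕ → ℝ) : Prop := ∃ C : ℝ, 0 ≤ C ∧ ∀ n, f n ≤ C * Real.log (n + 2)

lemma log_two_le (n : ℕ) : Real.log 2 ≤ Real.log (n + 2) := by
  apply Real.log_le_log (by norm_num)
  have : (0 : ℝ) ≤ n := Nat.cast_nonneg _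
  linarith

lemma Lg.const (c : ℝ) : Lg fun _ => c := by
  refine ⟨|c| / Real.log 2, by positivity, fun n => ?_⟩
  have h2 : 0 < Real.log 2 := Real.log_pos (by norm_num)
  calc c ≤ |c| := le_abs_self c
    _ = |c| / Real.log 2 * Real.log 2 := by field_simp
    _ ≤ _ := mul_le_mul_of_nonneg_left (log_two_le n) (by positivity)

lemma Lg.add {f g : ℕ → ℝ} (hf : Lg f) (hg : Lg g) : Lg fun n => f n + g n := by
  obtain ⟨C, hC, h⟩ := hf
  obtain ⟨C', hC', h'⟩ := hg
  exact ⟨C + C', by positivity, fun n => by have := h n; have := h' n; rw [add_mul]; linarith⟩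

lemma Lg.mul_const {f : ℕ → ℝ} (c : ℝ) (hc : 0 ≤ c) (hf : Lg f) : Lg fun n => c * f n := by
  obtain ⟨C, hC, h⟩ := hf
  exact ⟨c * C, by positivity, fun n => by
    rw [mul_assoc]; exact mul_le_mul_of_nonneg_left (h n) hc⟩

lemma Lg.mono {f g : ℕ → ℝ} (h : ∀ n, f n ≤ g n) (hg : Lg g) : Lg f := by
  obtain ⟨C, hC, h'⟩ := hg
  exact ⟨C, hC, fun n => (h n).trans (h' n)⟩

lemma Lg.sum {ι : Type*} (s : Finset ι) {f : ι → ℕ → ℝ} (h : ∀ i ∈ s, Lg (f i)) :
    Lg fun n => ∑ i ∈ s, f i n := by
  classical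
  induction s using Finset.induction_on with
  | empty => simpa using Lg.const 0
  | insert a s ha ih =>
    have h1 := (h a (mem_insert_self _ _)).add (ih fun i hi => h i (mem_insert_of_mem hi))
    refine Lg.mono (fun n => ?_) h1
    rw [sum_insert ha]

lemma lg_natCast : Lg fun n => logHeight₁ (n : K) := by
  refine ⟨totalWeight K, Nat.cast_nonneg _, fun n => ?_⟩
  have h1 : mulHeight₁ (n : K) ≤ ((n : ℝ) + 2) ^ totalWeight K := by
    rw [mulHeight₁_eq]
    have hv : ∀ v : nonarchAbsVal (K := K), max (v.val (n : K)) 1 = 1 := fun v =>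
      max_eq_right (AdmissibleAbsValues.isNonarchimedean _ v.2).apply_natCast_le_one
    simp only [hv, finprod_one, mul_one]
    have h2 : (archAbsVal.map fun v : AbsoluteValue K ℝ => max (v (n : K)) 1).prod ≤
        (archAbsVal.map fun _ : AbsoluteValue K ℝ => (n : ℝ) + 2).prod := by
      apply Multiset.prod_map_le_prod_map₀
      · intro v _
        positivity
      · intro v _
        have h3 := natCast_le v n
        exact max_le (by linarith) (by have : (0 : ℝ) ≤ n := Nat.cast_nonneg _; linarith)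
    refine h2.trans_eq ?_
    rw [Multiset.map_const', Multiset.prod_replicate]
    rfl
  change Real.log (mulHeight₁ (n : K)) ≤ _
  rw [← Real.log_pow]
  exact Real.log_le_log (mulHeight₁_pos _) h1

lemma logHeight₁_nn (x : K) : 0 ≤ logHeight₁ x := zero_le_logHeight₁ x

lemma lg_poly (p : Polynomial K) : Lg fun n => logHeight₁ (p.eval (n : K)) := by
  have h1 : Lg fun n : ℕ => totalWeight K * Real.log (#(Finset.range (p.natDegree + 1))) +
      ∑ j ∈ Finset.range (p.natDegree + 1),
        (logHeight₁ (p.coeff j) + (j : ℝ) * logHeight₁ (n : K)) := by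
    apply Lg.add (Lg.const _)
    apply Lg.sum
    intro j _
    exact (Lg.const _).add (lg_natCast.mul_const _ (Nat.cast_nonneg _))
  refine Lg.mono (fun n => ?_) h1
  rw [Polynomial.eval_eq_sum_range]
  refine (logHeight₁_sum_le _ _).trans ?_
  gcongr with j _
  refine (logHeight₁_mul_le _ _).trans ?_
  rw [logHeight₁_pow]

open scoped Polynomial Polynomial.Bivariate in
lemma lg_root [CharZero K] (R : K[X][Y]) (hR : R ≠ 0) :
    ∃ (C : ℝ) (n₁ : ℕ), 0 ≤ C ∧ ∀ (n : ℕ) (ρ : K), n₁ ≤ n → R.evalEval (n : K) ρ = 0 →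
      logHeight₁ ρ ≤ C * Real.log (n + 2) := by
  classical
  set k := R.natDegree with hk
  have hlead : R.coeff k ≠ 0 := by
    rw [hk, Polynomial.coeff_natDegree]
    exact Polynomial.leadingCoeff_ne_zero.2 hR
  obtain ⟨n₁, hn₁⟩ := eventually_ne (R.coeff k) hlead
  have h1 : Lg fun n : ℕ => totalWeight K * Real.log k + ∑ i : Fin k,
      (logHeight₁ ((R.coeff i).eval (n : K)) + logHeight₁ ((R.coeff k).eval (n : K))) :=
    (Lg.const _).add (Lg.sum _ fun i _ => (lg_poly _).add (lg_poly _))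
  obtain ⟨C, hC, hb⟩ := h1
  refine ⟨C, n₁, hC, fun n ρ hn hρ => ?_⟩
  have hne := hn₁ n hn
  have h2 : ∑ i ∈ Finset.range (k + 1), (R.coeff i).eval (n : K) * ρ ^ i = 0 := by
    rw [Polynomial.evalEval, Polynomial.eval_eq_sum_range (p := R), Polynomial.eval_finsetSum] at hρ
    rw [← hρ]
    refine sum_congr rfl fun i _ => ?_
    rw [Polynomial.eval_mul, Polynomial.eval_pow, Polynomial.eval_C]
  rcases Nat.eq_zero_or_pos k with h0 | hpos
  · exfalso
    rw [h0] at h2 hne
    simp at h2
    exact hne h2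
  · refine (root_bound ρ k hpos (fun i => -((R.coeff i).eval (n : K) /
      (R.coeff k).eval (n : K))) ?_).trans ((add_le_add_right ?_ _).trans (hb n))
    · rw [Finset.sum_range_succ] at h2
      have h3 : ∑ i : Fin k, -((R.coeff i).eval (n : K) / (R.coeff k).eval (n : K)) * ρ ^ (i : ℕ) =
          -(∑ i ∈ Finset.range k, (R.coeff i).eval (n : K) * ρ ^ i) /
            (R.coeff k).eval (n : K) := by
        rw [Finset.sum_range, neg_div, Finset.sum_div, ← Finset.sum_neg_distrib]
        exact sum_congr rfl fun i _ => by ring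
      rw [h3, eq_div_iff hne]
      linear_combination h2
    · refine sum_le_sum fun i _ => ?_
      rw [← neg_one_mul]
      refine (logHeight₁_mul_le _ _).trans ?_
      rw [div_eq_mul_inv]
      have e1 : logHeight₁ (-1 : K) = 0 := by rw [logHeight₁_neg, logHeight₁_one]
      rw [e1, zero_add]
      refine (logHeight₁_mul_le _ _).trans ?_
      rw [logHeight₁_inv]

open scoped Polynomial Polynomial.Bivariate in
theorem lg_of_rel [CharZero K] {τ : Type*} [Fintype τ] (z : ℕ → τ → K) (hz : ∀ n, z n ≠ 0)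
    (h : ∀ a b : τ, ∃ R : K[X][Y], R ≠ 0 ∧ ∀ n : ℕ, z n a ≠ 0 →
      R.evalEval (n : K) (z n b / z n a) = 0) :
    ∃ C : ℝ, ∀ n : ℕ, logHeight (z n) ≤ C * Real.log (n + 2) := by
  classical
  choose R hR hrel using h
  choose C n₁ hC hb using fun a b => lg_root (R a b) (hR a b)
  let n₂ : ℕ := ∑ a, ∑ b, n₁ a b
  have hn₂ : ∀ a b, n₁ a b ≤ n₂ := fun a b =>
    (Finset.single_le_sum (f := fun b => n₁ a b) (fun _ _ => Nat.zero_le _) (mem_univ b)).trans
      (Finset.single_le_sum (f := fun a => ∑ b, n₁ a b) (fun _ _ => Nat.zero_le _) (mem_univ a))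
  have h1 : Lg fun n => ∑ a, ∑ b, (C a b * Real.log (n + 2)) :=
    Lg.sum _ fun a _ => Lg.sum _ fun b _ => ⟨C a b, hC a b, fun n => le_rfl⟩
  have h2 : Lg fun _ : ℕ => ∑ m ∈ Finset.range n₂, logHeight (z m) := Lg.const _
  obtain ⟨C', -, hC'⟩ := h1.add h2
  refine ⟨C', fun n => le_trans ?_ (hC' n)⟩
  have hpos : ∀ a b, 0 ≤ C a b * Real.log ((n : ℝ) + 2) := fun a b =>
    mul_nonneg (hC a b) ((Real.log_nonneg (by norm_num)).trans (log_two_le n))
  by_cases hn : n < n₂
  · have h3 : logHeight (z n) ≤ ∑ m ∈ Finset.range n₂, logHeight (z m) :=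
      Finset.single_le_sum (f := fun m => logHeight (z m)) (fun _ _ => logHeight_nonneg _)
        (Finset.mem_range.2 hn)
    have h4 : 0 ≤ ∑ a, ∑ b, (C a b * Real.log ((n : ℝ) + 2)) :=
      Finset.sum_nonneg fun a _ => Finset.sum_nonneg fun b _ => hpos a b
    linarith
  · obtain ⟨a, ha⟩ := Function.ne_iff.1 (hz n)
    have ha' : z n a ≠ 0 := ha
    have h3 : logHeight (z n) = logHeight (fun b => z n b / z n a) := by
      have h4 : z n = z n a • (fun b => z n b / z n a) := by
        funext b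
        rw [Pi.smul_apply, smul_eq_mul]
        field_simp
      conv_lhs => rw [h4]
      exact logHeight_smul_eq_logHeight _ ha'
    rw [h3]
    have h5 : logHeight (fun b => z n b / z n a) ≤ ∑ b, C a b * Real.log ((n : ℝ) + 2) := by
      refine (logHeight_le_sum _).trans (sum_le_sum fun b _ => ?_)
      exact hb a b n _ ((hn₂ a b).trans (not_lt.1 hn)) (hrel a b n ha')
    have h6 : ∑ b, C a b * Real.log ((n : ℝ) + 2) ≤ ∑ a, ∑ b, (C a b * Real.log ((n : ℝ) + 2)) :=
      Finset.single_le_sum (f := fun a => ∑ b, (C a b * Real.log ((n : ℝ) + 2)))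
        (fun a _ => Finset.sum_nonneg fun b _ => hpos a b) (mem_univ a)
    have h7 : 0 ≤ ∑ m ∈ Finset.range n₂, logHeight (z m) :=
      Finset.sum_nonneg fun m _ => logHeight_nonneg _
    linarith

end Pool.Agent.J6H86.LH
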