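import Mathlib

set_option autoImplicit false

/-! Places of a number field: a good place for finitely many elements. -/

namespace Pool.Agent.J6H86.LH

open Height AdmissibleAbsValues NumberField IsDedekindDomain Finset
open scoped Nat

section

variable {k : Type*} [Field k] [NumberField k]

lemma exists_over (k : Type*) [Field k] [NumberField k] {p : ℕ} (hp : p.Prime) :
    ∃ P : HeightOneSpectrum (𝓞 k), (p : 𝓞 k) ∈ P.asIdeal := by
  have hnu : ¬ IsUnit (p : 𝓞 k) := by
    intro h
    have h1 := h.map (Algebra.norm ℤ)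
    have h2 : Algebra.norm ℤ (p : 𝓞 k) = (p : ℤ) ^ Module.finrank ℤ (𝓞 k) := by
      have h5 := Algebra.norm_algebraMap (S := 𝓞 k) (p : ℤ)
      rw [← h5]
      congr 1
      simp
    rw [h2, isUnit_pow_iff (by rw [RingOfIntegers.rank]; exact Module.finrank_pos.ne')] at h1
    exact (Nat.prime_iff_prime_int.1 hp).not_isUnit h1
  obtain ⟨M, hM, hpM⟩ := exists_max_ideal_of_mem_nonunits (mem_nonunits_iff.2 hnu)
  refine ⟨⟨M, hM.isPrime, fun h0 => ?_⟩, hpM⟩
  rw [h0, Ideal.mem_bot] at hpM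
  exact hp.ne_zero (by exact_mod_cast hpM)

lemma inf_primes (k : Type*) [Field k] [NumberField k] : Infinite (HeightOneSpectrum (𝓞 k)) := by
  choose f hf using fun p : Nat.Primes => exists_over k p.2
  refine Infinite.of_injective f fun p q hpq => ?_
  by_contra hne
  have hne' : (p : ℕ) ≠ q := fun h => hne (Subtype.ext h)
  have hc : Nat.Coprime p q := (Nat.coprime_primes p.2 q.2).2 hne'
  have h1 := hf p
  have h2 := hf q
  rw [← hpq] at h2
  have h3 : (1 : 𝓞 k) ∈ (f p).asIdeal := by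
    have hb := Nat.gcd_eq_gcd_ab (p : ℕ) (q : ℕ)
    rw [hc] at hb
    have hb' : (1 : 𝓞 k) = (((p : ℕ) : ℤ) : 𝓞 k) * ((Nat.gcdA p q : ℤ) : 𝓞 k) +
        (((q : ℕ) : ℤ) : 𝓞 k) * ((Nat.gcdB p q : ℤ) : 𝓞 k) := by
      rw [← Int.cast_mul, ← Int.cast_mul, ← Int.cast_add, ← hb]
      simp
    rw [hb']
    refine add_mem (Ideal.mul_mem_right _ _ ?_) (Ideal.mul_mem_right _ _ ?_)
    · rw [Int.cast_natCast]; exact h1
    · rw [Int.cast_natCast]; exact h2
  exact (f p).isPrime.ne_top ((Ideal.eq_top_iff_one _).2 h3)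

end

/-- A lower bound for factorials at a nonarchimedean place. -/
lemma factorial_bound {K : Type*} [Field K] [CharZero K] (v : AbsoluteValue K ℝ)
    (hv : IsNonarchimedean v) (n₀ : ℕ) (hn₀ : 0 < n₀) (h₀ : v (n₀ : K) < 1) :
    ∃ c : ℝ, 1 ≤ c ∧ ∀ n : ℕ, 1 ≤ c ^ n * v (n ! : K) := by
  classical
  have hex : ∃ n : ℕ, 0 < n ∧ v (n : K) < 1 := ⟨n₀, hn₀, h₀⟩
  set p := Nat.find hex with hp
  obtain ⟨hp0, hp1⟩ := Nat.find_spec hex
  have hmin : ∀ m : ℕ, 0 < m → m < p → v (m : K) = 1 := by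
    intro m hm hmp
    have h1 := Nat.find_min hex hmp
    push Not at h1
    exact le_antisymm hv.apply_natCast_le_one (h1 hm)
  have hpp : p.Prime := by
    rw [Nat.prime_def_lt']
    constructor
    · by_contra h
      have : p = 1 := by omega
      rw [← hp, this] at hp1
      simp at hp1
    · intro m hm hmp hdvd
      obtain ⟨l, hl⟩ := hdvd
      have hl0 : 0 < l := by
        rcases Nat.eq_zero_or_pos l with h | h
        · rw [h, mul_zero] at hl; omega
        · exact h
      have hlp : l < p := by nlinarith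
      have h1 : v (p : K) = 1 := by
        rw [hl]
        push_cast
        rw [v.map_mul, hmin m (by omega) hmp, hmin l hl0 hlp, one_mul]
      rw [h1] at hp1
      exact lt_irrefl _ hp1
  have hcop : ∀ u : ℕ, ¬ p ∣ u → v (u : K) = 1 := by
    intro u hu
    by_contra hne
    have hlt : v (u : K) < 1 := lt_of_le_of_ne hv.apply_natCast_le_one hne
    have hr : 0 < u % p := Nat.pos_of_ne_zero fun h => hu (Nat.dvd_of_mod_eq_zero h)
    have h1 : v ((u % p : ℕ) : K) < 1 := by
      have h2 : ((u % p : ℕ) : K) = (u : K) + -((p : K) * ((u / p : ℕ) : K)) := by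
        have h3 := Nat.mod_add_div u p
        have h4 : ((u % p : ℕ) : K) + (p : K) * ((u / p : ℕ) : K) = u := by exact_mod_cast h3
        linear_combination h4
      rw [h2]
      refine (hv _ _).trans_lt (max_lt hlt ?_)
      rw [v.map_neg, v.map_mul]
      have h5 : v ((u / p : ℕ) : K) ≤ 1 := hv.apply_natCast_le_one
      calc v (p : K) * v ((u / p : ℕ) : K) ≤ v (p : K) * 1 :=
            mul_le_mul_of_nonneg_left h5 (v.nonneg _)
        _ < 1 := by rw [mul_one]; exact hp1
    rw [hmin _ hr (Nat.mod_lt _ hpp.pos)] at h1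
    exact lt_irrefl _ h1
  have hpv : 0 < v (p : K) := v.pos_iff.2 (by exact_mod_cast hpp.ne_zero)
  refine ⟨(v (p : K))⁻¹, (one_le_inv₀ hpv).2 hp1.le, fun n => ?_⟩
  have : Fact p.Prime := ⟨hpp⟩
  have hn : n ! ≠ 0 := Nat.factorial_ne_zero n
  have h1 : v (n ! : K) = v (p : K) ^ (padicValNat p n !) := by
    obtain ⟨u, hu⟩ := @pow_padicValNat_dvd p (n !)
    have hnu : ¬ p ∣ u := by
      rintro ⟨w, hw⟩
      have h2 : p ^ (padicValNat p n ! + 1) ∣ n ! := ⟨w, by
        rw [pow_succ, mul_assoc, ← hw]; exact hu⟩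
      exact pow_succ_padicValNat_not_dvd hn h2
    conv_lhs => rw [hu]
    push_cast
    rw [v.map_mul, map_pow, hcop u hnu, mul_one]
  have h2 : padicValNat p n ! ≤ n := by
    have h3 := @sub_one_mul_padicValNat_factorial p _ n
    have h4 : 1 ≤ p - 1 := by have := hpp.two_le; omega
    calc padicValNat p n ! = 1 * padicValNat p n ! := (one_mul _).symm
      _ ≤ (p - 1) * padicValNat p n ! := Nat.mul_le_mul_right _ h4
      _ ≤ n := by rw [h3]; exact Nat.sub_le _ _
  rw [h1]
  have h3 : v (p : K) ^ n ≤ v (p : K) ^ (padicValNat p n !) :=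
    pow_le_pow_of_le_one hpv.le hp1.le h2
  calc (1 : ℝ) = (v (p : K))⁻¹ ^ n * v (p : K) ^ n := by
        rw [← mul_pow, inv_mul_cancel₀ hpv.ne', one_pow]
    _ ≤ _ := mul_le_mul_of_nonneg_left h3 (by positivity)

variable {K : Type*} [Field K] [NumberField K]

/-- For finitely many elements of a number field there is a finite place, with its valuation ring
and a uniformizer, at which these elements are integral. -/
theorem exists_place (S : Set K) (hS : S.Finite) :
    ∃ (v : AbsoluteValue K ℝ) (O : Subring K) (π : O), v ∈ nonarchAbsVal (K := K) ∧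
      (∀ x, x ∈ O ↔ v x ≤ 1) ∧ (π : K) ≠ 0 ∧ v π < 1 ∧ (∀ x : O, v x < 1 → π ∣ x) ∧
      Finite (O ⧸ Ideal.span {π}) ∧ (∀ s ∈ S, s ≠ 0 → v s = 1) ∧
      ∃ c : ℝ, 1 ≤ c ∧ ∀ n : ℕ, 1 ≤ c ^ n * v (n ! : K) := by
  classical
  have hinf := inf_primes K
  -- a good prime
  obtain ⟨P, hP⟩ : ∃ P : HeightOneSpectrum (𝓞 K), ∀ s ∈ S, s ≠ 0 → FinitePlace.mk P s = 1 := by
    have hfin : (⋃ s ∈ S \ {0}, (fun w : FinitePlace K => w s).mulSupport).Finite := by
      apply Set.Finite.biUnion (hS.subset Set.sdiff_subset)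
      intro s hs
      exact FinitePlace.hasFiniteMulSupport hs.2
    have hfin2 := hfin.preimage (f := FinitePlace.mk (K := K))
      (fun a _ b _ h => FinitePlace.mk_eq_iff.1 h)
    obtain ⟨P, hP⟩ := hfin2.exists_notMem
    refine ⟨P, fun s hs h0 => ?_⟩
    by_contra h2
    apply hP
    rw [Set.mem_preimage, Set.mem_iUnion₂]
    exact ⟨s, ⟨hs, h0⟩, h2⟩
  set v : AbsoluteValue K ℝ := NumberField.HeightOneSpectrum.adicAbv K P with hv
  have hmk : ∀ x, FinitePlace.mk P x = v x := fun x => by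
    rw [FinitePlace.mk_apply, FinitePlace.norm_embedding]
  have hval : ∀ x, v x = WithZeroMulInt.toNNReal
      (NumberField.HeightOneSpectrum.absNorm_ne_zero P) (P.valuation K x) := fun x => rfl
  have hmono := WithZeroMulInt.toNNReal_strictMono
    (NumberField.HeightOneSpectrum.one_lt_absNorm_nnreal P)
  have hle : ∀ x, v x ≤ 1 ↔ P.valuation K x ≤ 1 := by
    intro x
    rw [hval, ← NNReal.coe_one, NNReal.coe_le_coe, ← hmono.le_iff_le, map_one]
  have hlt : ∀ x, v x < 1 ↔ P.valuation K x < 1 := by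
    intro x
    rw [hval, ← NNReal.coe_one, NNReal.coe_lt_coe, ← hmono.lt_iff_lt, map_one]
  obtain ⟨π, hπ⟩ := P.valuation_exists_uniformizer K
  have hπ1 : P.valuation K π < 1 := by
    rw [hπ, ← WithZero.exp_zero, WithZero.exp_lt_exp]
    norm_num
  have hπ0 : π ≠ 0 := by
    rintro rfl
    rw [map_zero] at hπ
    exact WithZero.exp_ne_zero hπ.symm
  let O : Subring K := (P.valuation K).integer
  have hO : ∀ x, x ∈ O ↔ v x ≤ 1 := fun x => (hle x).symm
  let π' : O := ⟨π, hπ1.le⟩
  have hdvd : ∀ x : O, v x < 1 → π' ∣ x := by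
    intro x hx
    rw [hlt] at hx
    have h1 : P.valuation K ((x : K) / π) ≤ 1 := by
      by_cases hx0 : (x : K) = 0
      · rw [hx0, zero_div, map_zero]; exact zero_le_one
      · rw [map_div₀, hπ]
        have h2 : P.valuation K (x : K) ≠ 0 := (Valuation.ne_zero_iff _).2 hx0
        rw [← WithZero.exp_log h2] at hx ⊢
        rw [← WithZero.exp_zero, WithZero.exp_lt_exp] at hx
        rw [← WithZero.exp_sub, ← WithZero.exp_zero, WithZero.exp_le_exp]
        omega
    refine ⟨⟨(x : K) / π, h1⟩, Subtype.ext ?_⟩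
    change (x : K) = π * ((x : K) / π)
    field_simp
  have hfinO : Finite (O ⧸ Ideal.span {π'}) := by
    have hPfin : Finite (𝓞 K ⧸ P.asIdeal) := P.asIdeal.finiteQuotientOfFreeOfNeBot P.ne_bot
    let f : 𝓞 K →+* O := (algebraMap (𝓞 K) K).codRestrict O fun x => P.valuation_le_one x
    let g : 𝓞 K →+* O ⧸ Ideal.span {π'} := (Ideal.Quotient.mk _).comp f
    have hg : ∀ a ∈ P.asIdeal, g a = 0 := by
      intro a ha
      change Ideal.Quotient.mk _ (f a) = 0
      rw [Ideal.Quotient.eq_zero_iff_mem, Ideal.mem_span_singleton]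
      apply hdvd
      rw [hlt]
      exact (P.valuation_lt_one_iff_mem a).2 ha
    have hsurj : Function.Surjective (Ideal.Quotient.lift P.asIdeal g hg) := by
      intro y
      obtain ⟨y, rfl⟩ := Ideal.Quotient.mk_surjective y
      obtain ⟨a, ha⟩ := P.exists_valuation_sub_lt_of_integer (x := (y : K)) y.2 1
      refine ⟨Ideal.Quotient.mk _ a, ?_⟩
      rw [Ideal.Quotient.lift_mk]
      change Ideal.Quotient.mk _ (f a) = _
      rw [Ideal.Quotient.eq, Ideal.mem_span_singleton]
      apply hdvd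
      rw [hlt]
      have ha' : P.valuation K (algebraMap (𝓞 K) K a - (y : K)) < 1 := ha
      exact ha'
    exact Finite.of_surjective _ hsurj
  have hvmem : v ∈ nonarchAbsVal (K := K) := by
    change IsFinitePlace v
    refine ⟨P, ?_⟩
    ext x
    rw [place_apply, FinitePlace.norm_embedding]
  refine ⟨v, O, π', hvmem, hO, hπ0, (hlt _).2 hπ1, hdvd, hfinO, fun s hs h0 => ?_, ?_⟩
  · rw [← hmk]; exact hP s hs h0
  · have hna := AdmissibleAbsValues.isNonarchimedean v hvmem
    have h1 : 0 < Ideal.absNorm P.asIdeal := by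
      have := NumberField.HeightOneSpectrum.one_lt_absNorm P
      omega
    refine factorial_bound v hna (Ideal.absNorm P.asIdeal) h1 ?_
    have h2 : ((Ideal.absNorm P.asIdeal : ℕ) : 𝓞 K) ∈ P.asIdeal := Ideal.absNorm_mem _
    have h3 := (P.adicAbv_coe_lt_one_iff (K := K)
      (NumberField.HeightOneSpectrum.one_lt_absNorm_nnreal P) _).2 h2
    rw [map_natCast] at h3
    exact h3

end Pool.Agent.J6H86.LH
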