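import Pool.Agent.J6H86.LH.Orbit
import Pool.Agent.J6H86.LH.Core2
import Pool.Agent.J6H86.LH.LogB
import Pool.Agent.J6H86.LH.Place

set_option autoImplicit false

/-! Linear growth of heights along one residue class of indices. -/

namespace Pool.Agent.J6H86.LH

open Height AdmissibleAbsValues Filter
open scoped Nat

lemma E_map {B C F : Type*} [AddCommGroup B] [AddCommGroup C] [FunLike F B C]
    [AddMonoidHomClass F B C] (f : F) (t : ℕ) (u : ℕ → B) (n m : ℕ) :
    (E t)^[n] (fun m => f (u m)) m = f ((E t)^[n] u m) := by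
  induction n generalizing m with
  | zero => rfl
  | succ n ih =>
    rw [Function.iterate_succ_apply', Function.iterate_succ_apply']
    change (E t)^[n] (fun m => f (u m)) (m + 2 * t) - (E t)^[n] (fun m => f (u m)) (m + t) = _
    rw [ih, ih, ← map_sub]
    rfl

open scoped Polynomial Polynomial.Bivariate in
theorem class_rel {K : Type*} [Field K] [NumberField K] (v : AbsoluteValue K ℝ)
    (hvmem : v ∈ nonarchAbsVal (K := K)) (O : Subring K) (π : O)
    (hO : ∀ x, x ∈ O ↔ v x ≤ 1) (hπ0 : (π : K) ≠ 0) (hπ1 : v π < 1)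
    (hdvd : ∀ x : O, v x < 1 → π ∣ x) [Finite (O ⧸ Ideal.span {π})]
    (c : ℝ) (hc : 1 ≤ c) (hfac : ∀ n : ℕ, 1 ≤ c ^ n * v (n ! : K))
    {σ τ : Type*} [Fintype σ] [Finite τ] (Ψ : σ → MvPolynomial σ O) (y : ℕ → σ → O)
    (hy : ∀ m a, y (m + 1) a = MvPolynomial.eval (y m) (Ψ a))
    (hc0 : ∀ m a, ∃ z, y m a = y 0 a + π * z)
    (G : τ → MvPolynomial σ O) (hG : ∀ m, res π (val G (y m)) ≠ 0)
    (hslow : ∀ ε : ℝ, 0 < ε → ∀ᶠ m : ℕ in atTop,
      logHeight (fun l => ((val G (y m) l : O) : K)) < ε * (m : ℝ)) (l l' : τ) :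
    ∃ R : K[X][Y], R ≠ 0 ∧ ∀ m : ℕ, ((val G (y m) l : O) : K) ≠ 0 →
      R.evalEval (m : K) (((val G (y m) l' : O) : K) / ((val G (y m) l : O) : K)) = 0 := by
  classical
  set z : ℕ → τ → K := fun m l => ((val G (y m) l : O) : K) with hz
  -- the integral vectors are primitive
  have hsup : ∀ m, ⨆ l, v (z m l) = 1 := by
    intro m
    obtain ⟨l, hl⟩ : ∃ l, res π (val G (y m)) l ≠ 0 := Function.ne_iff.1 (hG m)
    have : Nonempty τ := ⟨l⟩
    have h1 : v (z m l) = 1 := by
      refine le_antisymm ((hO _).1 (val G (y m) l).2) ?_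
      by_contra hlt
      push Not at hlt
      apply hl
      have := hdvd _ hlt
      change Ideal.Quotient.mk _ _ = 0
      rw [Ideal.Quotient.eq_zero_iff_mem, Ideal.mem_span_singleton]
      exact this
    refine le_antisymm (ciSup_le fun l => (hO _).1 (val G (y m) l).2) ?_
    rw [← h1]
    exact Finite.le_ciSup (fun l => v (z m l)) l
  have hzne : ∀ m, z m ≠ 0 := by
    intro m h
    have h1 := hsup m
    rw [h] at h1
    simp at h1
  have hπc : ∀ a b : O, π * a = π * b → a = b := by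
    intro a b hab
    have hπ0' : π ≠ 0 := fun h => hπ0 (by rw [h]; rfl)
    exact mul_left_cancel₀ hπ0' hab
  obtain ⟨t, ht, hcontr⟩ := disc_contr π hπc Ψ y hy hc0
  have hρ : 0 < v π := v.pos_iff.2 hπ0
  -- the contraction in terms of the absolute value
  have Hv : ∀ (l l' : τ) (D k i n m : ℕ), i ≤ D →
      v ((E t)^[n] (fun m => (m.choose k : K) * (z m l ^ (D - i) * z m l' ^ i)) m) ≤
        c ^ k * v π ^ n := by
    intro l l' D k i n m _
    obtain ⟨a, ha⟩ := hcontr (descPochhammer O k) (G l ^ (D - i) * G l' ^ i) n m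
    have hk : (k ! : K) ≠ 0 := by exact_mod_cast k.factorial_ne_zero
    have h1 : (fun m : ℕ => (m.choose k : K) * (z m l ^ (D - i) * z m l' ^ i)) =
        fun m : ℕ => (AddMonoidHom.mulLeft ((k ! : K)⁻¹)) ((O.subtype : O →+* K)
          ((descPochhammer O k).eval (m : O) * MvPolynomial.eval (y m) (G l ^ (D - i) * G l' ^ i))) := by
      funext m
      rw [descPochhammer_eval_eq_descFactorial, Nat.descFactorial_eq_factorial_mul_choose]
      simp only [AddMonoidHom.coe_mulLeft, map_mul, map_pow, map_natCast, Nat.cast_mul]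
      have e1 : (O.subtype (MvPolynomial.eval (y m) (G l))) = z m l := rfl
      have e2 : (O.subtype (MvPolynomial.eval (y m) (G l'))) = z m l' := rfl
      rw [e1, e2]
      field_simp
    rw [h1, E_map, E_map, ha]
    simp only [AddMonoidHom.coe_mulLeft, map_mul, map_pow, map_inv₀]
    have h2 : v (O.subtype a) ≤ 1 := (hO _).1 a.2
    have h3 : v (O.subtype π) = v (π : K) := rfl
    rw [h3]
    have h4 : (v (k ! : K))⁻¹ ≤ c ^ k := by
      have h5 : 0 < v (k ! : K) := v.pos_iff.2 hk
      rw [inv_le_iff_one_le_mul₀ h5]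
      exact hfac k
    calc (v (k ! : K))⁻¹ * (v (π : K) ^ n * v (O.subtype a)) ≤ c ^ k * (v (π : K) ^ n * 1) := by
          apply mul_le_mul h4 _ (by positivity) (by positivity)
          exact mul_le_mul_of_nonneg_left h2 (by positivity)
      _ = _ := by rw [mul_one]
  by_contra hcon
  push Not at hcon
  obtain ⟨ε, hε, hfreq⟩ := core v hvmem (v π) c hρ hπ1 hc t ht z hzne hsup l l' (Hv l l') (by
    intro N D p hp
    by_contra hp0
    obtain ⟨R, hR, hrel⟩ := rel_of_not_ind (fun m => z m l) (fun m => z m l') N D p hp hp0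
    obtain ⟨m, hm, hne⟩ := hcon R hR
    exact hne (hrel m hm))
  obtain ⟨m, h1, h2⟩ := (hfreq.and_eventually (hslow ε hε)).exists
  exact absurd h2 (not_lt.2 h1)

end Pool.Agent.J6H86.LH
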