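import Pool.Agent.J6H86.LH.Core

set_option autoImplicit false

/-! Sequences whose ratios are Zariski dense in the plane: one of the two ratios is transcendental
over the rational functions of the index. -/

namespace Pool.Agent.J6H86.LH

open MvPolynomial Finset

variable {K : Type*} [Field K]

/-- A nonzero combination of the binomial functions is eventually nonzero. -/
lemma exists_poly [CharZero K] {N : ℕ} (q : Fin N → K) :
    ∃ P : Polynomial K, (∀ m : ℕ, P.eval (m : K) = ∑ k, q k * (m.choose k : K)) ∧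
      (P = 0 → q = 0) := by
  classical
  refine ⟨∑ k, Polynomial.C (q k / ((k : ℕ).factorial : K)) * descPochhammer K k, ?_, ?_⟩
  · intro m
    rw [Polynomial.eval_finsetSum]
    refine sum_congr rfl fun k _ => ?_
    rw [Polynomial.eval_mul, Polynomial.eval_C, descPochhammer_eval_eq_descFactorial,
      Nat.descFactorial_eq_factorial_mul_choose]
    have : ((k : ℕ).factorial : K) ≠ 0 := by exact_mod_cast (k : ℕ).factorial_ne_zero
    push_cast
    field_simp
  · intro h
    have h1 : ∀ m : ℕ, ∑ k, q k * (m.choose k : K) = 0 := by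
      intro m
      have h2 : ∑ k, q k * (m.choose k : K) = Polynomial.eval (m : K)
          (∑ k, Polynomial.C (q k / ((k : ℕ).factorial : K)) * descPochhammer K k) := by
        rw [Polynomial.eval_finsetSum]
        refine sum_congr rfl fun k _ => ?_
        rw [Polynomial.eval_mul, Polynomial.eval_C, descPochhammer_eval_eq_descFactorial,
          Nat.descFactorial_eq_factorial_mul_choose]
        have : ((k : ℕ).factorial : K) ≠ 0 := by exact_mod_cast (k : ℕ).factorial_ne_zero
        push_cast
        field_simp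
      rw [h2, h, Polynomial.eval_zero]
    have h3 : ∀ n (hn : n < N), q ⟨n, hn⟩ = 0 := by
      intro n
      induction n using Nat.strong_induction_on with
      | _ n ih =>
        intro hn
        have h4 := h1 n
        rw [Finset.sum_eq_single (⟨n, hn⟩ : Fin N)] at h4
        · simpa using h4
        · intro k _ hk
          rcases lt_trichotomy (k : ℕ) n with h5 | h5 | h5
          · rw [ih k h5 k.2, zero_mul]
          · exact absurd (Fin.ext h5) hk
          · rw [Nat.choose_eq_zero_of_lt h5]
            simp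
        · intro h5
          exact absurd (mem_univ _) h5
    funext k
    exact h3 k k.2

lemma eventually_ne [CharZero K] (P : Polynomial K) (hP : P ≠ 0) :
    ∃ N₀ : ℕ, ∀ m ≥ N₀, P.eval (m : K) ≠ 0 := by
  classical
  have hfin : {m : ℕ | P.eval (m : K) = 0}.Finite := by
    have h1 : ((P.roots.toFinset : Set K)).Finite := Finset.finite_toSet _
    refine (h1.preimage (Nat.cast_injective.injOn)).subset fun m hm => ?_
    simp only [Set.mem_preimage, mem_coe, Multiset.mem_toFinset]
    exact (Polynomial.mem_roots hP).2 hm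
  obtain ⟨n, hn⟩ := hfin.bddAbove
  refine ⟨n + 1, fun m hm h => ?_⟩
  have := hn h
  omega

/-- the sequences which are nonzero wherever a nonzero polynomial in the ratios is -/
def Mon (a b c : ℕ → K) : Submonoid (ℕ → K) where
  carrier := {f | ∃ Q : MvPolynomial (Fin 2) K, Q ≠ 0 ∧ ∃ N₀ : ℕ, ∀ m ≥ N₀, a m ≠ 0 →
    eval ![b m / a m, c m / a m] Q ≠ 0 → f m ≠ 0}
  mul_mem' := by
    rintro f g ⟨Q, hQ, N, h⟩ ⟨Q', hQ', N', h'⟩
    refine ⟨Q * Q', mul_ne_zero hQ hQ', max N N', fun m hm ha hq => ?_⟩
    rw [map_mul] at hq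
    exact mul_ne_zero (h m (le_of_max_le_left hm) ha (left_ne_zero_of_mul hq))
      (h' m (le_of_max_le_right hm) ha (right_ne_zero_of_mul hq))
  one_mem' := ⟨1, one_ne_zero, 0, fun m _ _ _ => one_ne_zero⟩

theorem exists_pair [CharZero K] (a b c : ℕ → K)
    (H : ∀ Q : MvPolynomial (Fin 2) K, Q ≠ 0 → ∀ N₀ : ℕ, ∃ m ≥ N₀, a m ≠ 0 ∧
      eval ![b m / a m, c m / a m] Q ≠ 0) :
    (∀ (N D : ℕ) (p : Fin N × Fin (D + 1) → K),
      (∀ m, ∑ x, p x * wvec a b N D m x = 0) → p = 0) ∨
    (∀ (N D : ℕ) (p : Fin N × Fin (D + 1) → K),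
      (∀ m, ∑ x, p x * wvec a c N D m x = 0) → p = 0) := by
  classical
  by_contra hcon
  push Not at hcon
  obtain ⟨⟨N, D, p, hp, hp0⟩, ⟨N', D', p', hp', hp0'⟩⟩ := hcon
  -- the prime ideal
  have hdisj : Disjoint ((⊥ : Ideal (ℕ → K)) : Set (ℕ → K)) (Mon a b c) := by
    rw [Set.disjoint_left]
    rintro f hf ⟨Q, hQ, N₀, h⟩
    obtain ⟨m, hm, ha, hq⟩ := H Q hQ N₀
    apply h m hm ha hq
    have : f = 0 := hf
    rw [this]
    rfl
  obtain ⟨𝔮, hprime, -, hq⟩ := Ideal.exists_le_prime_disjoint (⊥ : Ideal (ℕ → K)) _ hdisj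
  have hnot : ∀ f ∈ Mon a b c, Ideal.Quotient.mk 𝔮 f ≠ 0 := by
    intro f hf h
    rw [Ideal.Quotient.eq_zero_iff_mem] at h
    exact Set.disjoint_left.1 hq h hf
  let B := (ℕ → K) ⧸ 𝔮
  have : IsDomain B := Ideal.Quotient.isDomain 𝔮
  let ζ : ℕ → K := fun m => (m : K)
  -- evaluation of polynomials at sequences
  have hpoly : ∀ (P : Polynomial K) (m : ℕ), (Polynomial.aeval ζ P : ℕ → K) m = P.eval (m : K) := by
    intro P m
    have h1 := Polynomial.aeval_algHom_apply (Pi.evalAlgHom K (fun _ : ℕ => K) m) ζ P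
    rw [Pi.evalAlgHom_apply, Pi.evalAlgHom_apply] at h1
    rw [← h1, Polynomial.coe_aeval_eq_eval]
  have hmv : ∀ (Q : MvPolynomial (Fin 2) K) (s : Fin 2 → ℕ → K) (m : ℕ),
      (aeval s Q : ℕ → K) m = eval (fun i => s i m) Q := by
    intro Q s m
    have h1 := comp_aeval_apply (Pi.evalAlgHom K (fun _ : ℕ => K) m) (f := s) Q
    rw [Pi.evalAlgHom_apply] at h1
    rw [h1, ← coe_aeval_eq_eval]
    rfl
  -- algebraicity of the ratio
  have key : ∀ (b : ℕ → K) (N D : ℕ) (p : Fin N × Fin (D + 1) → K),
      (∀ m, ∑ x, p x * wvec a b N D m x = 0) → p ≠ 0 →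
      IsAlgebraic (Algebra.adjoin K {(Ideal.Quotient.mk 𝔮 ζ : B)})
        (Ideal.Quotient.mk 𝔮 (fun m => b m / a m) : B) := by
    intro b' N D p hp hp0
    choose P hP hP0 using fun i : Fin (D + 1) => exists_poly (fun k : Fin N => p (k, i))
    obtain ⟨i₀, hi₀⟩ : ∃ i, P i ≠ 0 := by
      by_contra h
      push Not at h
      apply hp0
      funext x
      exact congrFun (hP0 x.2 (h x.2)) x.1
    let β : Fin (D + 1) → Algebra.adjoin K {(Ideal.Quotient.mk 𝔮 ζ : B)} := fun i =>
      ⟨Polynomial.aeval (Ideal.Quotient.mk 𝔮 ζ : B) (P i),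
        Polynomial.aeval_mem_adjoin_singleton _ _⟩
    have hβ : ∀ i, (β i : B) = Ideal.Quotient.mk 𝔮 (Polynomial.aeval ζ (P i)) := by
      intro i
      have h1 := Polynomial.aeval_algHom_apply (Ideal.Quotient.mkₐ K 𝔮) ζ (P i)
      exact h1
    refine ⟨∑ i, Polynomial.C (β i) * Polynomial.X ^ (i : ℕ), ?_, ?_⟩
    · intro h
      have h1 := congrArg (fun R => Polynomial.coeff R (i₀ : ℕ)) h
      simp only [Polynomial.finsetSum_coeff, Polynomial.coeff_C_mul, Polynomial.coeff_X_pow,
        Polynomial.coeff_zero] at h1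
      rw [Finset.sum_eq_single i₀] at h1
      · rw [if_pos rfl, mul_one] at h1
        have h2 : (β i₀ : B) = 0 := by rw [h1]; rfl
        rw [hβ] at h2
        refine hnot _ ?_ h2
        obtain ⟨N₀, hN₀⟩ := eventually_ne (P i₀) hi₀
        refine ⟨1, one_ne_zero, N₀, fun m hm _ _ => ?_⟩
        rw [hpoly]
        exact hN₀ m hm
      · intro i _ hi
        rw [if_neg (fun h => hi (Fin.ext h.symm)), mul_zero]
      · intro h3
        exact absurd (mem_univ _) h3
    · have hrel : a * ∑ i : Fin (D + 1), Polynomial.aeval ζ (P i) *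
          (fun m => b' m / a m) ^ (i : ℕ) = 0 := by
        funext m
        rw [Pi.mul_apply, Pi.zero_apply, Finset.sum_apply]
        by_cases ha : a m = 0
        · rw [ha, zero_mul]
        · have h1 : ∑ i : Fin (D + 1), (Polynomial.aeval ζ (P i) *
              (fun m => b' m / a m) ^ (i : ℕ)) m =
              ∑ i : Fin (D + 1), (P i).eval (m : K) * (b' m / a m) ^ (i : ℕ) := by
            refine sum_congr rfl fun i _ => ?_
            rw [Pi.mul_apply, Pi.pow_apply, hpoly]
          have h2 : a m ^ D * ∑ i : Fin (D + 1), (P i).eval (m : K) * (b' m / a m) ^ (i : ℕ) =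
              0 := by
            rw [← hp m, Fintype.sum_prod_type_right, mul_sum]
            refine sum_congr rfl fun i _ => ?_
            rw [hP, sum_mul, mul_sum]
            refine sum_congr rfl fun k _ => ?_
            simp only [wvec]
            have h3 : a m ^ D = a m ^ (D - (i : ℕ)) * a m ^ (i : ℕ) := by
              rw [← pow_add]; congr 1; omega
            rw [h3, div_pow]
            field_simp
          rw [h1, (mul_eq_zero.1 h2).resolve_left (pow_ne_zero _ ha), mul_zero]
      have hrel2 := congrArg (Ideal.Quotient.mk 𝔮) hrel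
      rw [map_mul, map_zero] at hrel2
      have ha : Ideal.Quotient.mk 𝔮 a ≠ 0 := hnot a ⟨1, one_ne_zero, 0, fun m _ h _ => h⟩
      have h3 := (mul_eq_zero.1 hrel2).resolve_left ha
      rw [map_sum]
      rw [map_sum] at h3
      refine Eq.trans (sum_congr rfl fun i _ => ?_) h3
      rw [map_mul, map_pow, Polynomial.aeval_C, Polynomial.aeval_X, map_mul, map_pow]
      congr 1
      exact hβ i
  -- independence
  let s : Fin 2 → ℕ → K := ![fun m => b m / a m, fun m => c m / a m]
  have hind : AlgebraicIndependent K (fun i => (Ideal.Quotient.mk 𝔮 (s i) : B)) := by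
    rw [algebraicIndependent_iff]
    intro Q hQ
    by_contra hQ0
    have h1 : (aeval (fun i => (Ideal.Quotient.mk 𝔮 (s i) : B)) Q : B) =
        Ideal.Quotient.mk 𝔮 (aeval s Q) := by
      have h2 := comp_aeval_apply (Ideal.Quotient.mkₐ K 𝔮) (f := s) Q
      exact h2.symm
    rw [h1] at hQ
    refine hnot _ ⟨Q, hQ0, 0, fun m _ _ hne => ?_⟩ hQ
    rw [hmv]
    have h3 : (fun i => s i m) = ![b m / a m, c m / a m] := by
      funext i
      fin_cases i <;> rfl
    rw [h3]
    exact hne
  have hinj : Function.Injective (algebraMap K B) := (algebraMap K B).injective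
  have : FaithfulSMul K B := (faithfulSMul_iff_algebraMap_injective K B).2 hinj
  -- the matroid argument
  have hset := hind.to_subtype_range
  set T : Set B := Set.range (fun i => (Ideal.Quotient.mk 𝔮 (s i) : B)) with hT
  have h1 : (AlgebraicIndependent.matroid K B).Indep T := hset
  have hcl : T ⊆ (AlgebraicIndependent.matroid K B).closure {(Ideal.Quotient.mk 𝔮 ζ : B)} := by
    rw [AlgebraicIndependent.matroid_closure_eq]
    rintro _ ⟨i, rfl⟩
    fin_cases i
    · exact key b N D p hp hp0
    · exact key c N' D' p' hp' hp0'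
  have h2 := h1.encard_le_eRk_of_subset hcl
  rw [Matroid.eRk_closure_eq] at h2
  have h3 := h2.trans (Matroid.eRk_le_encard _ _)
  rw [Set.encard_singleton] at h3
  have h4 : T.encard = 2 := by
    rw [hT, ← Set.image_univ, hind.injective.injOn.encard_image, Set.encard_univ]
    simp
  rw [h4] at h3
  exact absurd h3 (by decide)

end Pool.Agent.J6H86.LH
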