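import Mathlib

set_option autoImplicit false

/-! Contraction: for a system of polynomial functions which is affine modulo `π`, a suitable
difference operator maps the sequences given by polynomials to multiples of `π`. -/

namespace Pool.Agent.J6H86.LH

open MvPolynomial

lemma exists_idem {M : Type*} [Monoid M] (x : M) (i j : ℕ) (hij : i < j) (h : x ^ i = x ^ j) :
    ∃ t > 0, x ^ (2 * t) = x ^ t := by
  obtain ⟨d, hd, rfl⟩ : ∃ d, 0 < d ∧ j = i + d := ⟨j - i, by omega, by omega⟩
  have h1 : ∀ n k, i ≤ k → x ^ (k + n * d) = x ^ k := by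
    intro n
    induction n with
    | zero => intro k _; simp
    | succ n ih =>
      intro k hk
      have h2 : k + (n + 1) * d = (k - i) + (i + d) + n * d := by
        have : (n + 1) * d = n * d + d := by ring
        omega
      rw [h2, ih _ (by omega), pow_add, ← h, ← pow_add]
      congr 1
      omega
  refine ⟨(i + 1) * d, Nat.mul_pos (by omega) hd, ?_⟩
  rw [two_mul]
  exact h1 (i + 1) ((i + 1) * d) (by nlinarith)

section Affine

variable {A : Type*} [CommRing A] {σ : Type*} [Fintype σ]

/-- the affine polynomial with given coefficients -/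
noncomputable def aff (p : A × (σ → A)) : MvPolynomial σ A := C p.1 + ∑ b, C (p.2 b) * X b

/-- composition of affine maps on coefficients -/
noncomputable def affComp (θ : σ → A × (σ → A)) (p : A × (σ → A)) : A × (σ → A) :=
  (p.1 + ∑ b, p.2 b * (θ b).1, fun c => ∑ b, p.2 b * (θ b).2 c)

lemma bind_aff (θ : σ → A × (σ → A)) (p : A × (σ → A)) :
    bind₁ (fun a => aff (θ a)) (aff p) = aff (affComp θ p) := by
  unfold affComp
  simp only [aff, map_add, map_sum, map_mul, bind₁_C_right, bind₁_X_right]
  simp only [mul_add, Finset.sum_add_distrib, Finset.mul_sum, ← map_mul, Finset.sum_mul]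
  rw [add_assoc]
  congr 2
  rw [Finset.sum_comm]
  refine Finset.sum_congr rfl fun b _ => Finset.sum_congr rfl fun c _ => ?_
  rw [map_mul, mul_assoc]

lemma iterate_aff [DecidableEq σ] (θ : σ → A × (σ → A)) (a : σ) (k : ℕ) :
    (bind₁ (fun a => aff (θ a)))^[k] (X a) =
      aff ((affComp θ)^[k] (0, Pi.single a 1)) := by
  induction k with
  | zero =>
    simp only [Function.iterate_zero, id, aff, map_zero, zero_add]
    rw [Finset.sum_eq_single a]
    · simp
    · intro b _ hb
      simp [hb]
    · simp
  | succ k ih =>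
    rw [Function.iterate_succ_apply', ih, bind_aff, Function.iterate_succ_apply']

lemma exists_period [Finite A] (θ : σ → A × (σ → A)) :
    ∃ t > 0, ∀ g, (bind₁ (fun a => aff (θ a)))^[2 * t] g =
      (bind₁ (fun a => aff (θ a)))^[t] g := by
  classical
  set φ : MvPolynomial σ A →ₐ[A] MvPolynomial σ A := bind₁ (fun a => aff (θ a)) with hφ
  obtain ⟨i, j, hne, hij⟩ := Finite.exists_ne_map_eq_of_infinite
    (fun k : ℕ => fun a : σ => (affComp θ)^[k] ((0 : A), (Pi.single a (1 : A) : σ → A)))
  have hpow : ∀ k : ℕ, ∀ g, (φ ^ k) g = φ^[k] g := by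
    intro k
    induction k with
    | zero => intro g; simp
    | succ k ih =>
      intro g
      rw [pow_succ, AlgHom.mul_apply, ih, Function.iterate_succ_apply]
  have hφij : φ ^ i = φ ^ j := by
    apply MvPolynomial.algHom_ext
    intro a
    rw [hpow, hpow, hφ, iterate_aff, iterate_aff]
    exact congrArg aff (congrFun hij a)
  obtain ⟨t, ht, h⟩ : ∃ t > 0, φ ^ (2 * t) = φ ^ t := by
    rcases lt_or_gt_of_ne hne with h | h
    · exact exists_idem φ i j h hφij
    · exact exists_idem φ j i h hφij.symm
  refine ⟨t, ht, fun g => ?_⟩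
  rw [← hpow, ← hpow, h]

/-- The difference operator. -/
def E {B : Type*} [Sub B] (t : ℕ) (u : ℕ → B) : ℕ → B := fun m => u (m + 2 * t) - u (m + t)

lemma exists_contr_poly (π : A) [Finite (A ⧸ Ideal.span {π})] (p : σ → A × (σ → A))
    (h : σ → MvPolynomial σ A) :
    ∃ t > 0, ∀ g : MvPolynomial σ A, ∃ g',
      (bind₁ (fun a => aff (p a) + C π * h a))^[2 * t] g -
        (bind₁ (fun a => aff (p a) + C π * h a))^[t] g = C π * g' := by
  classical
  set q : A →+* A ⧸ Ideal.span {π} := Ideal.Quotient.mk _ with hq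
  set θ : σ → MvPolynomial σ A := fun a => aff (p a) + C π * h a with hθ
  let p' : σ → (A ⧸ Ideal.span {π}) × (σ → A ⧸ Ideal.span {π}) :=
    fun a => (q (p a).1, fun b => q ((p a).2 b))
  have hqπ : q π = 0 := by
    rw [hq, Ideal.Quotient.eq_zero_iff_mem]
    exact Ideal.subset_span rfl
  have hmap : ∀ a, MvPolynomial.map q (θ a) = aff (p' a) := by
    intro a
    simp only [hθ, aff, p', map_add, map_sum, map_mul, map_C, map_X, hqπ, map_zero, zero_mul,
      add_zero]
  have hstep : ∀ g, MvPolynomial.map q (bind₁ θ g) = bind₁ (fun a => aff (p' a)) (map q g) := by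
    intro g
    rw [map_bind₁]
    congr 2
    funext a
    exact hmap a
  have hiter : ∀ k g, MvPolynomial.map q ((bind₁ θ)^[k] g) =
      (bind₁ (fun a => aff (p' a)))^[k] (map q g) := by
    intro k
    induction k with
    | zero => intro g; rfl
    | succ k ih =>
      intro g
      rw [Function.iterate_succ_apply', hstep, ih, Function.iterate_succ_apply']
  obtain ⟨t, ht, h1⟩ := exists_period p'
  refine ⟨t, ht, fun g => ?_⟩
  have h2 : MvPolynomial.map q ((bind₁ θ)^[2 * t] g - (bind₁ θ)^[t] g) = 0 := by
    rw [map_sub, hiter, hiter, h1, sub_self]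
  have h3 := (MvPolynomial.C_dvd_iff_map_hom_eq_zero q π (fun r => by
    rw [hq, Ideal.Quotient.eq_zero_iff_mem, Ideal.mem_span_singleton]) _).2 h2
  exact h3

/-- Contraction for sequences. -/
theorem exists_contr (π : A) [Finite (A ⧸ Ideal.span {π})] (p : σ → A × (σ → A))
    (h : σ → MvPolynomial σ A) (Z : ℕ → σ → A)
    (hZ : ∀ m a, Z (m + 1) a = eval (Z m) (aff (p a) + C π * h a)) :
    ∃ t > 0, ∀ (g : MvPolynomial σ A) (k : ℕ), ∃ g' : MvPolynomial σ A,
      ∀ m, (E t)^[k] (fun m => eval (Z m) g) m = π ^ k * eval (Z m) g' := by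
  obtain ⟨t, ht, H⟩ := exists_contr_poly π p h
  have hstep : ∀ m g, eval (Z (m + 1)) g =
      eval (Z m) (bind₁ (fun a => aff (p a) + C π * h a) g) := by
    intro m g
    rw [show Z (m + 1) = fun a => eval (Z m) (aff (p a) + C π * h a) from funext (hZ m)]
    rw [← coe_aeval_eq_eval, ← coe_aeval_eq_eval, RingHom.coe_coe, RingHom.coe_coe, aeval_bind₁]
  have hiter : ∀ k m g, eval (Z (m + k)) g =
      eval (Z m) ((bind₁ (fun a => aff (p a) + C π * h a))^[k] g) := by
    intro k
    induction k with
    | zero => intro m g; rfl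
    | succ k ih =>
      intro m g
      rw [← add_assoc, hstep, ih, Function.iterate_succ_apply]
  refine ⟨t, ht, fun g k => ?_⟩
  induction k with
  | zero => exact ⟨g, fun m => by simp⟩
  | succ k ih =>
    obtain ⟨g', hg'⟩ := ih
    obtain ⟨g'', hg''⟩ := H g'
    refine ⟨g'', fun m => ?_⟩
    rw [Function.iterate_succ_apply']
    have h1 : (E t ((E t)^[k] fun m => eval (Z m) g)) m =
      ((E t)^[k] fun m => eval (Z m) g) (m + 2 * t) -
        ((E t)^[k] fun m => eval (Z m) g) (m + t) := rfl
    rw [h1, hg', hg', hiter, hiter, ← mul_sub, ← map_sub, hg'', map_mul, eval_C]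
    ring

end Affine

/-! ### Affine reduction of polynomial maps on a residue disc -/

section Disc

variable {A : Type*} [CommRing A] {σ : Type*} [Fintype σ]

lemma exists_taylor (π : A) (c : σ → A) (G : MvPolynomial σ A) :
    ∃ (β : σ → A) (h : MvPolynomial σ A),
      bind₁ (fun b => C (c b) + C π * X b) G =
        C (eval c G) + C π * (∑ b, C (β b) * X b) + C (π ^ 2) * h := by
  classical
  induction G using MvPolynomial.induction_on with
  | C a => exact ⟨0, 0, by simp⟩
  | add p q hp hq =>
    obtain ⟨β, h, e⟩ := hp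
    obtain ⟨β', h', e'⟩ := hq
    refine ⟨β + β', h + h', ?_⟩
    rw [map_add, e, e', map_add, map_add]
    simp only [Pi.add_apply, map_add, add_mul, Finset.sum_add_distrib]
    ring
  | mul_X p b hp =>
    obtain ⟨β, h, e⟩ := hp
    refine ⟨fun a => c b * β a + if a = b then eval c p else 0,
      (∑ b, C (β b) * X b) * X b + h * (C (c b) + C π * X b), ?_⟩
    rw [map_mul, e, bind₁_X_right, map_mul, eval_X]
    have h1 : ∑ a, C (c b * β a + if a = b then eval c p else 0) * (X a : MvPolynomial σ A) =
        C (c b) * (∑ a, C (β a) * X a) + C (eval c p) * X b := by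
      simp only [map_add, map_mul, add_mul, Finset.sum_add_distrib, Finset.mul_sum, mul_assoc]
      congr 1
      rw [Finset.sum_eq_single b]
      · simp
      · intro a _ ha
        simp [ha]
      · simp
    rw [h1]
    simp only [map_mul, map_pow]
    ring

end Disc

end Pool.Agent.J6H86.LH
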