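import Mathlib

set_option autoImplicit false

/-! Bounds for determinants, and the product formula. -/

namespace Pool.Agent.J6H86.LH

open Height AdmissibleAbsValues Function Finset
open scoped Nat

variable {K : Type*} [Field K]

section Bounds

variable {n : Type*} [Fintype n] [DecidableEq n]

lemma det_arch (v : AbsoluteValue K ℝ) (A : Matrix n n K) (b : n → ℝ)
    (hb : ∀ i j, v (A i j) ≤ b i) : v A.det ≤ (Fintype.card n)! * ∏ i, b i := by
  calc v A.det = v (∑ σ : Equiv.Perm n, Equiv.Perm.sign σ • ∏ i, A (σ i) i) :=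
        congr_arg v (Matrix.det_apply _)
    _ ≤ ∑ σ : Equiv.Perm n, v (Equiv.Perm.sign σ • ∏ i, A (σ i) i) := v.sum_le _ _
    _ = ∑ σ : Equiv.Perm n, ∏ i, v (A (σ i) i) :=
        sum_congr rfl fun σ _ => by rw [v.map_units_int_smul, map_prod]
    _ ≤ ∑ _σ : Equiv.Perm n, ∏ i, b i := by
        refine sum_le_sum fun σ _ => ?_
        calc ∏ i, v (A (σ i) i) ≤ ∏ i, b (σ i) :=
              prod_le_prod (fun i _ => v.nonneg _) fun i _ => hb _ _
          _ = ∏ i, b i := Equiv.prod_comp σ b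
    _ = (Fintype.card n)! * ∏ i, b i := by simp [Fintype.card_perm]

lemma det_nonarch (v : AbsoluteValue K ℝ) (hv : IsNonarchimedean v) (A : Matrix n n K) (b : n → ℝ)
    (hb : ∀ i j, v (A i j) ≤ b i) : v A.det ≤ ∏ i, b i := by
  rw [Matrix.det_apply]
  refine (hv.apply_sum_le_sup (Finset.univ_nonempty (α := Equiv.Perm n))).trans ?_
  refine Finset.sup'_le _ _ fun σ _ => ?_
  rw [v.map_units_int_smul, map_prod]
  calc ∏ i, v (A (σ i) i) ≤ ∏ i, b (σ i) :=
        prod_le_prod (fun i _ => v.nonneg _) fun i _ => hb _ _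
    _ = ∏ i, b i := Equiv.prod_comp σ b

end Bounds

variable [AdmissibleAbsValues K] {τ : Type*} [Finite τ]

lemma iSup_one_of {v : AbsoluteValue K ℝ} {z : τ → K} (hz : z ≠ 0)
    (h : ∀ i, z i ≠ 0 → v (z i) = 1) : ⨆ i, v (z i) = 1 := by
  obtain ⟨i, hi⟩ : ∃ i, z i ≠ 0 := Function.ne_iff.mp hz
  have : Nonempty τ := ⟨i⟩
  apply le_antisymm
  · refine ciSup_le fun j => ?_
    by_cases hj : z j = 0
    · rw [hj, v.map_zero]; exact zero_le_one
    · rw [h j hj]
  · rw [← h i hi]
    exact Finite.le_ciSup (fun i => v (z i)) i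

lemma hfms_iSup {z : τ → K} (hz : z ≠ 0) :
    (fun v : nonarchAbsVal (K := K) => ⨆ i, v.val (z i)).HasFiniteMulSupport := by
  have h1 : (⋃ i ∈ {i | z i ≠ 0},
      (fun v : nonarchAbsVal (K := K) => v.val (z i)).mulSupport).Finite := by
    apply Set.Finite.biUnion (Set.toFinite _)
    intro i hi
    exact AdmissibleAbsValues.hasFiniteMulSupport hi
  apply h1.subset
  intro v hv
  rw [mem_mulSupport] at hv
  by_contra hcon
  apply hv
  apply iSup_one_of hz
  intro i hi
  by_contra h3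
  apply hcon
  rw [Set.mem_iUnion₂]
  exact ⟨i, hi, h3⟩

theorem det_product {J : Type*} [Fintype J] [DecidableEq J]
    (v₀ : AbsoluteValue K ℝ) (hv₀ : v₀ ∈ nonarchAbsVal (K := K))
    (W : Matrix J J K) (hdet : W.det ≠ 0) (z : J → τ → K) (hz : ∀ j, z j ≠ 0) (D : ℕ)
    (B : J → ℝ) (hB : ∀ j, 0 ≤ B j)
    (harch : ∀ v ∈ archAbsVal (K := K), ∀ j j', v (W j j') ≤ B j * (⨆ i, v (z j i)) ^ D)
    (hnon : ∀ v ∈ nonarchAbsVal (K := K), ∀ j j', v (W j j') ≤ (⨆ i, v (z j i)) ^ D)
    (ε₀ : ℝ) (h0 : v₀ W.det ≤ ε₀) (hz0 : ∀ j, ⨆ i, v₀ (z j i) = 1) :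
    1 ≤ ((Fintype.card J)! * ∏ j, B j) ^ (totalWeight K) * ε₀ * ∏ j, mulHeight (z j) ^ D := by
  classical
  have hε : 0 ≤ ε₀ := (v₀.nonneg _).trans h0
  have hsup : ∀ (v : AbsoluteValue K ℝ) j, 0 ≤ ⨆ i, v (z j i) := fun v j =>
    Real.iSup_nonneg fun i => v.nonneg _
  have h1 : (archAbsVal.map fun v : AbsoluteValue K ℝ => v W.det).prod ≤
      (archAbsVal.map fun v : AbsoluteValue K ℝ =>
        ((Fintype.card J)! * ∏ j, B j) * ∏ j, (⨆ i, v (z j i)) ^ D).prod := by
    apply Multiset.prod_map_le_prod_map₀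
    · intro v _
      exact v.nonneg _
    · intro v hv
      refine (det_arch v W (fun j => B j * (⨆ i, v (z j i)) ^ D) (harch v hv)).trans ?_
      rw [prod_mul_distrib, mul_assoc]
  have h2 : (archAbsVal.map fun v : AbsoluteValue K ℝ =>
        (((Fintype.card J)! : ℝ) * ∏ j, B j) * ∏ j, (⨆ i, v (z j i)) ^ D).prod =
      ((Fintype.card J)! * ∏ j, B j) ^ (totalWeight K) *
        ∏ j, ((archAbsVal.map fun v : AbsoluteValue K ℝ => ⨆ i, v (z j i)).prod) ^ D := by
    rw [Multiset.prod_map_mul, Multiset.prod_map_prod]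
    congr 1
    · rw [Multiset.map_const', Multiset.prod_replicate]
      rfl
    · exact prod_congr rfl fun j _ => by rw [Multiset.prod_map_pow]
  let c : nonarchAbsVal (K := K) → ℝ := fun v => if v.val = v₀ then ε₀ else 1
  have hc : c.HasFiniteMulSupport := by
    apply (Set.finite_singleton (⟨v₀, hv₀⟩ : nonarchAbsVal (K := K))).subset
    intro v hv
    rw [mem_mulSupport] at hv
    by_contra hcon
    apply hv
    have : v.val ≠ v₀ := fun h => hcon (Subtype.ext h)
    simp [c, this]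
  have hcprod : ∏ᶠ v, c v = ε₀ := by
    rw [finprod_eq_single c (⟨v₀, hv₀⟩ : nonarchAbsVal (K := K))]
    · simp [c]
    · intro v hv
      have : v.val ≠ v₀ := fun h => hv (Subtype.ext h)
      simp [c, this]
  have hpw : ∀ j, (fun v : nonarchAbsVal (K := K) => (⨆ i, v.val (z j i)) ^ D).HasFiniteMulSupport := by
    intro j
    apply (hfms_iSup (hz j)).subset
    intro v hv
    rw [mem_mulSupport] at hv ⊢
    intro h
    apply hv
    rw [h, one_pow]
  have hfp : (fun v : nonarchAbsVal (K := K) => ∏ j, (⨆ i, v.val (z j i)) ^ D).HasFiniteMulSupport := by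
    have h3 : (⋃ j, (fun v : nonarchAbsVal (K := K) =>
        (⨆ i, v.val (z j i)) ^ D).mulSupport).Finite := Set.finite_iUnion fun j => hpw j
    apply h3.subset
    intro v hv
    rw [mem_mulSupport] at hv
    by_contra hcon
    apply hv
    apply prod_eq_one
    intro j _
    by_contra h3
    apply hcon
    rw [Set.mem_iUnion]
    exact ⟨j, h3⟩
  have h3 : ∏ᶠ v : nonarchAbsVal (K := K), v.val W.det ≤
      ∏ᶠ v : nonarchAbsVal (K := K), c v * ∏ j, (⨆ i, v.val (z j i)) ^ D := by
    apply finprod_le_finprod (AdmissibleAbsValues.hasFiniteMulSupport hdet)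
      (fun v => v.val.nonneg _)
    · apply (hc.union hfp).subset
      intro v hv
      rw [mem_mulSupport] at hv
      by_contra hcon
      rw [Set.mem_union, not_or, mem_mulSupport, mem_mulSupport, not_not, not_not] at hcon
      apply hv
      rw [hcon.1, hcon.2, one_mul]
    · intro v
      change v.val W.det ≤ c v * ∏ j, (⨆ i, v.val (z j i)) ^ D
      by_cases hv : v.val = v₀
      · simp only [c, if_pos hv]
        rw [hv]
        simp only [hz0, one_pow, prod_const_one, mul_one]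
        exact h0
      · simp only [c, if_neg hv, one_mul]
        exact det_nonarch v.val (AdmissibleAbsValues.isNonarchimedean _ v.2) W _
          (hnon v.val v.2)
  have h4 : ∏ᶠ v : nonarchAbsVal (K := K), c v * ∏ j, (⨆ i, v.val (z j i)) ^ D =
      ε₀ * ∏ j, (∏ᶠ v : nonarchAbsVal (K := K), ⨆ i, v.val (z j i)) ^ D := by
    rw [finprod_mul_distrib hc hfp, hcprod, finprod_prod_comm _ _ fun j _ => hpw j]
    congr 1
    exact prod_congr rfl fun j _ => (finprod_pow (hfms_iSup (hz j)) D).symm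
  have h5 := product_formula (K := K) hdet
  have hnn1 : 0 ≤ ∏ᶠ v : nonarchAbsVal (K := K), v.val W.det :=
    finprod_nonneg fun v => v.val.nonneg _
  have hnn2 : 0 ≤ ((Fintype.card J)! * ∏ j, B j) ^ (totalWeight K) *
        ∏ j, ((archAbsVal.map fun v : AbsoluteValue K ℝ => ⨆ i, v (z j i)).prod) ^ D := by
    apply mul_nonneg
    · apply pow_nonneg
      apply mul_nonneg (Nat.cast_nonneg _)
      exact prod_nonneg fun j _ => hB j
    · apply prod_nonneg
      intro j _
      apply pow_nonneg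
      exact Multiset.prod_map_nonneg fun v _ => hsup v j
  calc (1 : ℝ) = (archAbsVal.map fun v : AbsoluteValue K ℝ => v W.det).prod *
        ∏ᶠ v : nonarchAbsVal (K := K), v.val W.det := h5.symm
    _ ≤ (((Fintype.card J)! * ∏ j, B j) ^ (totalWeight K) *
        ∏ j, ((archAbsVal.map fun v : AbsoluteValue K ℝ => ⨆ i, v (z j i)).prod) ^ D) *
        (ε₀ * ∏ j, (∏ᶠ v : nonarchAbsVal (K := K), ⨆ i, v.val (z j i)) ^ D) := by
        refine mul_le_mul (h1.trans_eq h2) (h3.trans_eq h4) hnn1 hnn2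
    _ = ((Fintype.card J)! * ∏ j, B j) ^ (totalWeight K) * ε₀ *
        ((∏ j, ((archAbsVal.map fun v : AbsoluteValue K ℝ => ⨆ i, v (z j i)).prod) ^ D) *
          ∏ j, (∏ᶠ v : nonarchAbsVal (K := K), ⨆ i, v.val (z j i)) ^ D) := by ring
    _ = _ := by
        rw [← prod_mul_distrib]
        congr 1
        exact prod_congr rfl fun j _ => by rw [← mul_pow, mulHeight_eq (hz j)]

end Pool.Agent.J6H86.LH
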