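import Pool.Agent.J6H86.LH.Rank
import Pool.Agent.J6H86.LH.Det

set_option autoImplicit false

/-! The linear lower bound for heights from contraction and independence. -/

namespace Pool.Agent.J6H86.LH

open Height AdmissibleAbsValues Function Finset Filter Submodule
open scoped Nat

lemma sum_lower (s : Finset ℕ) : s.card * s.card ≤ 2 * (∑ j ∈ s, j) + s.card := by
  induction s using Finset.induction_on_max with
  | empty => simp
  | insert a s ha ih =>
    have hna : a ∉ s := fun h => lt_irrefl _ (ha a h)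
    rw [card_insert_of_notMem hna, sum_insert hna]
    have h1 : s.card ≤ a := by
      have h2 : s ⊆ Finset.range a := fun x hx => Finset.mem_range.2 (ha x hx)
      simpa using card_le_card h2
    nlinarith

lemma choose_le {η : ℝ} (hη : 0 < η) (hη1 : η ≤ 1) (m k N : ℕ) (hk : k ≤ N) :
    (m.choose k : ℝ) ≤ (1 / η) ^ N * (1 + η) ^ m := by
  have h1 : (m.choose k : ℝ) * η ^ k ≤ (1 + η) ^ m := by
    by_cases hkm : k ≤ m
    · rw [add_comm, add_pow]
      have h2 : (m.choose k : ℝ) * η ^ k = η ^ k * 1 ^ (m - k) * (m.choose k : ℝ) := by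
        rw [one_pow]; ring
      rw [h2]
      exact single_le_sum (f := fun i => η ^ i * 1 ^ (m - i) * (m.choose i : ℝ))
        (fun i _ => by positivity) (Finset.mem_range.2 (by omega))
    · rw [Nat.choose_eq_zero_of_lt (by omega)]
      simp
      positivity
  have h2 : (m.choose k : ℝ) ≤ (1 / η) ^ k * (1 + η) ^ m := by
    have h3 : (m.choose k : ℝ) = (1 / η) ^ k * ((m.choose k : ℝ) * η ^ k) := by
      rw [one_div, inv_pow]
      field_simp
    rw [h3]
    exact mul_le_mul_of_nonneg_left h1 (by positivity)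
  refine h2.trans (mul_le_mul_of_nonneg_right ?_ (by positivity))
  exact pow_le_pow_right₀ (by rw [le_div_iff₀ hη]; linarith) hk

variable {K : Type*} [Field K]

lemma natCast_le (v : AbsoluteValue K ℝ) (n : ℕ) : v (n : K) ≤ n := by
  induction n with
  | zero => simp
  | succ n ih =>
    push_cast
    refine (v.add_le _ _).trans ?_
    rw [v.map_one]
    linarith

/-- the vector of the sequences `binom(m, k) a^(D-i) b^i` -/
def wvec (a b : ℕ → K) (N D : ℕ) (m : ℕ) (x : Fin N × Fin (D + 1)) : K :=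
  (m.choose x.1 : K) * (a m ^ (D - (x.2 : ℕ)) * b m ^ (x.2 : ℕ))

lemma span_wvec (a b : ℕ → K) (N D : ℕ)
    (H : ∀ p : Fin N × Fin (D + 1) → K, (∀ m, ∑ x, p x * wvec a b N D m x = 0) → p = 0) :
    span K (Set.range (wvec a b N D)) = ⊤ := by
  classical
  by_contra hne
  obtain ⟨f, hf, hker⟩ := Submodule.exists_le_ker_of_lt_top _ (lt_top_iff_ne_top.2 hne)
  apply hf
  have h1 := H (fun x => f (Pi.single x 1)) (by
    intro m
    have h2 : f (wvec a b N D m) = 0 := hker (subset_span ⟨m, rfl⟩)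
    rw [f.pi_apply_eq_sum_univ] at h2
    rw [← h2]
    refine sum_congr rfl fun x _ => ?_
    rw [smul_eq_mul, mul_comm]
    congr 2
    funext y
    simp [Pi.single_apply, eq_comm])
  apply LinearMap.pi_ext'
  intro x
  apply LinearMap.ext_ring
  have := congrFun h1 x
  simpa using this

lemma mono_le (v : AbsoluteValue K ℝ) {τ : Type*} [Finite τ] (z : τ → K) (l0 l1 : τ) (D i : ℕ)
    (hi : i ≤ D) : v (z l0 ^ (D - i) * z l1 ^ i) ≤ (⨆ l, v (z l)) ^ D := by
  have h0 : v (z l0) ≤ ⨆ l, v (z l) := Finite.le_ciSup (fun l => v (z l)) l0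
  have h1 : v (z l1) ≤ ⨆ l, v (z l) := Finite.le_ciSup (fun l => v (z l)) l1
  have hs : 0 ≤ ⨆ l, v (z l) := (v.nonneg _).trans h0
  rw [v.map_mul, map_pow, map_pow]
  calc v (z l0) ^ (D - i) * v (z l1) ^ i ≤
        (⨆ l, v (z l)) ^ (D - i) * (⨆ l, v (z l)) ^ i :=
        mul_le_mul (pow_le_pow_left₀ (v.nonneg _) h0 _) (pow_le_pow_left₀ (v.nonneg _) h1 _)
          (pow_nonneg (v.nonneg _) _) (pow_nonneg hs _)
    _ = _ := by rw [← pow_add]; congr 1; omega

variable [AdmissibleAbsValues K]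

/-- The determinant inequality, for one pair `(N, D)`. -/
theorem det_ineq {τ : Type*} [Finite τ]
    (v₀ : AbsoluteValue K ℝ) (hv₀ : v₀ ∈ nonarchAbsVal (K := K)) (ρ c : ℝ)
    (hρ : 0 < ρ) (hc : 1 ≤ c) (t : ℕ) (ht : 0 < t)
    (z : ℕ → τ → K) (hz : ∀ m, z m ≠ 0) (hz0 : ∀ m, ⨆ i, v₀ (z m i) = 1) (l0 l1 : τ)
    (Hv : ∀ D k i n m, i ≤ D → v₀ ((E t)^[n] (fun m => (m.choose k : K) *
      (z m l0 ^ (D - i) * z m l1 ^ i)) m) ≤ c ^ k * ρ ^ n)
    (N D : ℕ)
    (Hind : ∀ p : Fin N × Fin (D + 1) → K,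
      (∀ m, ∑ x, p x * wvec (fun m => z m l0) (fun m => z m l1) N D m x = 0) → p = 0)
    (η : ℝ) (hη : 0 < η) (hη1 : η ≤ 1) :
    ∃ J : Finset ℕ, J.card = N * (D + 1) ∧
      1 ≤ ((J.card)! * ∏ j ∈ J, ((1 / η) ^ N * (1 + η) ^ j)) ^ (totalWeight K) *
        (∏ j ∈ J, (c ^ N * ρ ^ (j / (2 * t)))) * ∏ j ∈ J, mulHeight (z j) ^ D := by
  classical
  set w := wvec (fun m => z m l0) (fun m => z m l1) N D with hw
  obtain ⟨J, e, hdet, hdet'⟩ := exists_J w (span_wvec _ _ N D Hind)
  have hcard : J.card = N * (D + 1) := by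
    have h1 := Fintype.card_congr e
    rw [Fintype.card_coe] at h1
    rw [h1]
    simp
  refine ⟨J, hcard, ?_⟩
  let w' : ℕ → Fin N × Fin (D + 1) → K := fun j =>
    (E t)^[j / (2 * t)] w (j - 2 * t * (j / (2 * t)))
  have hw' : ∀ j, w' j - w j ∈ span K (w '' Set.Iio j) := by
    intro j
    have h1 := E_mem w t ht (j / (2 * t)) (j - 2 * t * (j / (2 * t)))
    have h2 : j - 2 * t * (j / (2 * t)) + 2 * t * (j / (2 * t)) = j :=
      Nat.sub_add_cancel (Nat.mul_div_le j (2 * t))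
    rw [h2] at h1
    exact h1
  have hEapp : ∀ n m x, (E t)^[n] w m x = (E t)^[n] (fun m => w m x) m := by
    intro n
    induction n with
    | zero => intro m x; rfl
    | succ n ih =>
      intro m x
      rw [Function.iterate_succ_apply', Function.iterate_succ_apply']
      change (E t)^[n] w (m + 2 * t) x - (E t)^[n] w (m + t) x = _
      rw [ih, ih]
      rfl
  have h0 : v₀ (Matrix.of fun (j j' : J) => w j (e j')).det ≤
      ∏ j : J, (c ^ N * ρ ^ ((j : ℕ) / (2 * t))) := by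
    rw [← hdet' w' hw']
    apply det_nonarch v₀ (AdmissibleAbsValues.isNonarchimedean _ hv₀)
    intro j j'
    rw [Matrix.of_apply]
    change v₀ ((E t)^[(j : ℕ) / (2 * t)] w _ (e j')) ≤ _
    rw [hEapp]
    refine (Hv D (e j').1 (e j').2 ((j : ℕ) / (2 * t)) _ (by omega)).trans ?_
    apply mul_le_mul_of_nonneg_right _ (by positivity)
    exact pow_le_pow_right₀ hc (by omega)
  have h1 := det_product v₀ hv₀ (Matrix.of fun (j j' : J) => w j (e j')) hdet
    (fun j : J => z j) (fun j => hz j) D (fun j : J => (1 / η) ^ N * (1 + η) ^ (j : ℕ))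
    (fun j => by positivity)
    (by
      intro v _ j j'
      rw [Matrix.of_apply, hw]
      simp only [wvec]
      rw [v.map_mul]
      apply mul_le_mul
      · exact (natCast_le v _).trans (choose_le hη hη1 _ _ _ (by omega))
      · exact mono_le v (z j) l0 l1 D _ (by omega)
      · exact v.nonneg _
      · positivity)
    (by
      intro v hv j j'
      rw [Matrix.of_apply, hw]
      simp only [wvec]
      rw [v.map_mul]
      have h2 : v (((j : ℕ).choose ((e j').1 : ℕ) : ℕ) : K) ≤ 1 :=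
        (AdmissibleAbsValues.isNonarchimedean _ hv).apply_natCast_le_one
      have h3 := mono_le v (z j) l0 l1 D (e j').2 (by omega)
      calc _ ≤ 1 * v (z j l0 ^ (D - ((e j').2 : ℕ)) * z j l1 ^ ((e j').2 : ℕ)) :=
            mul_le_mul_of_nonneg_right h2 (v.nonneg _)
        _ ≤ _ := by rw [one_mul]; exact h3)
    _ h0 (fun j => hz0 j)
  have e1 : ∏ j : J, ((1 / η) ^ N * (1 + η) ^ (j : ℕ)) =
      ∏ j ∈ J, ((1 / η) ^ N * (1 + η) ^ j) :=
    Finset.prod_coe_sort J (fun j => (1 / η) ^ N * (1 + η) ^ j)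
  have e2 : ∏ j : J, (c ^ N * ρ ^ ((j : ℕ) / (2 * t))) =
      ∏ j ∈ J, (c ^ N * ρ ^ (j / (2 * t))) :=
    Finset.prod_coe_sort J (fun j => c ^ N * ρ ^ (j / (2 * t)))
  have e3 : ∏ j : J, mulHeight (z j) ^ D = ∏ j ∈ J, mulHeight (z j) ^ D :=
    Finset.prod_coe_sort J (fun j => mulHeight (z j) ^ D)
  rw [e1, e2, e3, Fintype.card_coe] at h1
  exact h1

end Pool.Agent.J6H86.LH
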