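import Mathlib

set_option autoImplicit false

/-! A bound for the Krull dimension of a quotient of a polynomial ring in which any three
coordinates satisfy a relation. -/

namespace Pool.Agent.J6H86.LH

open MvPolynomial Finset Cardinal

variable {K : Type*} [Field K]

/-- dimension does not increase under integral ring maps -/
lemma dim_le_of_integral {A B : Type*} [CommRing A] [CommRing B] [Algebra A B]
    [Algebra.IsIntegral A B] : ringKrullDim B ≤ ringKrullDim A := by
  refine Order.krullDim_le_of_strictMono (PrimeSpectrum.comap (algebraMap A B)) ?_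
  intro p q hpq
  exact Ideal.IsIntegral.comap_lt_comap (I := p.asIdeal) (J := q.asIdeal) hpq

/-- a family of generators such that no three of them are algebraically independent -/
lemma trdeg_le_two {D : Type*} [CommRing D] [IsDomain D] [Algebra K D] {τ : Type*} (x : τ → D)
    (hgen : Algebra.adjoin K (Set.range x) = ⊤)
    (h : ∀ a b c, x a ≠ 0 → ∃ H : MvPolynomial (Fin 3) K, H ≠ 0 ∧ aeval ![x a, x b, x c] H = 0) :
    Algebra.trdeg K D ≤ 2 := by
  have : Algebra.IsAlgebraic (Algebra.adjoin K (Set.range x)) D := by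
    rw [hgen]
    exact ⟨fun d => isAlgebraic_algebraMap (⟨d, trivial⟩ : (⊤ : Subalgebra K D))⟩
  obtain ⟨t, hts, ht⟩ := exists_isTranscendenceBasis_subset (R := K) (A := D) (Set.range x)
  rw [← ht.cardinalMk_eq_trdeg]
  by_contra hcon
  push Not at hcon
  have h3 : (3 : Cardinal) ≤ #t := by
    have h4 : (2 : Cardinal) + 1 ≤ #t :=
      Cardinal.add_one_le_of_lt hcon
    have e : (2 : Cardinal) + 1 = 3 := by norm_num
    rwa [e] at h4
  obtain ⟨f⟩ : Nonempty (Fin 3 ↪ t) := by
    rw [← Cardinal.lift_mk_le']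
    simpa using h3
  have hind : AlgebraicIndependent K fun i : Fin 3 => ((f i : t) : D) := ht.1.comp f f.injective
  obtain ⟨a, ha⟩ := hts (f 0).2
  obtain ⟨b, hb⟩ := hts (f 1).2
  obtain ⟨c, hc⟩ := hts (f 2).2
  have ha0 : x a ≠ 0 := by
    rw [ha]
    exact hind.ne_zero 0
  obtain ⟨H, hH, hH0⟩ := h a b c ha0
  apply hH
  have e : ![x a, x b, x c] = fun i : Fin 3 => ((f i : t) : D) := by
    funext i
    fin_cases i
    · exact ha
    · exact hb
    · exact hc
  rw [e] at hH0
  exact hind (by rw [hH0, map_zero] : aeval _ H = aeval _ (0 : MvPolynomial (Fin 3) K))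

theorem dim_le_two {τ : Type} [Finite τ] (I : Ideal (MvPolynomial τ K))
    (h : ∀ a b c : τ, ∃ H : MvPolynomial (Fin 3) K, H ≠ 0 ∧
      X a * aeval ![(X a : MvPolynomial τ K), X b, X c] H ∈ I) :
    ringKrullDim (MvPolynomial τ K ⧸ I) ≤ 2 := by
  rcases subsingleton_or_nontrivial (MvPolynomial τ K ⧸ I) with hs | hn
  · rw [ringKrullDim_eq_bot_of_subsingleton]
    exact bot_le
  have : Algebra.FiniteType K (MvPolynomial τ K ⧸ I) := inferInstance
  obtain ⟨s, g, hinj, hint⟩ := exists_integral_inj_algHom_of_fg K (MvPolynomial τ K ⧸ I)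
  let alg : Algebra (MvPolynomial (Fin s) K) (MvPolynomial τ K ⧸ I) := g.toRingHom.toAlgebra
  have hInt : Algebra.IsIntegral (MvPolynomial (Fin s) K) (MvPolynomial τ K ⧸ I) := ⟨hint⟩
  have hs : s ≤ 2 := by
    obtain ⟨Q, -, hQ, hQ0⟩ := Ideal.exists_ideal_over_prime_of_isIntegral
      (⊥ : Ideal (MvPolynomial (Fin s) K)) (⊥ : Ideal (MvPolynomial τ K ⧸ I)) (by
        rw [← RingHom.ker_eq_comap_bot]
        exact ((RingHom.injective_iff_ker_eq_bot _).1 hinj).le)
    have := hQ
    let q := Ideal.Quotient.mkₐ K Q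
    have hinj2 : Function.Injective (q.comp g) := by
      refine (injective_iff_map_eq_zero (q.comp g)).2 fun y hy => ?_
      have h00 : g y ∈ Q := Ideal.Quotient.eq_zero_iff_mem.1 hy
      have h0 : y ∈ Ideal.comap (algebraMap (MvPolynomial (Fin s) K) (MvPolynomial τ K ⧸ I)) Q :=
        h00
      rw [hQ0] at h0
      exact h0
    have hind : AlgebraicIndependent K fun i : Fin s => q (g (X i)) := by
      rw [algebraicIndependent_iff_injective_aeval]
      have e : (aeval fun i : Fin s => q (g (X i))) = q.comp g := by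
        ext i
        simp
      rw [e]
      exact hinj2
    have h1 := hind.lift_cardinalMk_le_trdeg
    let x : τ → (MvPolynomial τ K ⧸ I) ⧸ Q := fun a => q (Ideal.Quotient.mkₐ K I (X a))
    have h2 : Algebra.trdeg K ((MvPolynomial τ K ⧸ I) ⧸ Q) ≤ 2 := by
      refine trdeg_le_two x ?_ ?_
      · have e1 : (aeval x : MvPolynomial τ K →ₐ[K] _) = q.comp (Ideal.Quotient.mkₐ K I) := by
          ext a
          simp [x]
        have e2 : Algebra.adjoin K (Set.range x) = (aeval x : MvPolynomial τ K →ₐ[K] _).range :=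
          Algebra.adjoin_range_eq_range_aeval K x
        rw [e2, e1, AlgHom.range_eq_top]
        exact (Ideal.Quotient.mkₐ_surjective K Q).comp (Ideal.Quotient.mkₐ_surjective K I)
      · intro a b c ha
        obtain ⟨H, hH, hHI⟩ := h a b c
        refine ⟨H, hH, ?_⟩
        have h3 : q (Ideal.Quotient.mkₐ K I (X a * aeval ![(X a : MvPolynomial τ K), X b, X c] H)) = 0 := by
          have h4 : Ideal.Quotient.mkₐ K I (X a * aeval ![(X a : MvPolynomial τ K), X b, X c] H) = 0 :=
            Ideal.Quotient.eq_zero_iff_mem.2 hHI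
          rw [h4, map_zero]
        rw [map_mul, map_mul] at h3
        have h5 := (mul_eq_zero.1 h3).resolve_left ha
        have h6 : q (Ideal.Quotient.mkₐ K I (aeval ![(X a : MvPolynomial τ K), X b, X c] H)) =
            aeval ![x a, x b, x c] H := by
          have e1 : (q.comp (Ideal.Quotient.mkₐ K I)).comp
              (aeval ![(X a : MvPolynomial τ K), X b, X c]) =
              (aeval ![x a, x b, x c] : MvPolynomial (Fin 3) K →ₐ[K] _) := by
            ext i
            fin_cases i <;> simp [x]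
          rw [← e1]
          rfl
        rw [← h6]
        exact h5
    have h7 := h1.trans (Cardinal.lift_le.2 h2)
    simp only [Cardinal.mk_fin, Cardinal.lift_natCast, Cardinal.lift_ofNat] at h7
    exact_mod_cast h7
  calc ringKrullDim (MvPolynomial τ K ⧸ I) ≤ ringKrullDim (MvPolynomial (Fin s) K) :=
        dim_le_of_integral
    _ = ringKrullDim K + (s : ℕ) := by
        rw [MvPolynomial.ringKrullDim_of_isNoetherianRing]
        simp
    _ ≤ 2 := by
        rw [ringKrullDim_eq_zero_of_field, zero_add]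
        exact_mod_cast hs

lemma as_sum_two (Q : MvPolynomial (Fin 2) K) {A : Type*} [CommRing A] [Algebra K A] (u v : A) :
    aeval ![u, v] Q = ∑ m ∈ Q.support, algebraMap K A (coeff m Q) * (u ^ m 0 * v ^ m 1) := by
  rw [aeval_def, eval₂_eq']
  refine sum_congr rfl fun m _ => ?_
  rw [Fin.prod_univ_two]
  rfl

lemma exists_homog (Q : MvPolynomial (Fin 2) K) (hQ : Q ≠ 0) :
    ∃ H : MvPolynomial (Fin 3) K, H ≠ 0 ∧ ∀ t : Fin 3 → K, t 0 ≠ 0 →
      eval ![t 1 / t 0, t 2 / t 0] Q = 0 → eval t H = 0 := by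
  classical
  refine ⟨∑ m ∈ Q.support, C (coeff m Q) *
    (X 0 ^ (Q.totalDegree - (m 0 + m 1)) * (X 1 ^ m 0 * X 2 ^ m 1)), ?_, ?_⟩
  · intro h
    apply hQ
    have h1 := congrArg (aeval ![(1 : MvPolynomial (Fin 2) K), X 0, X 1]) h
    rw [map_sum, map_zero] at h1
    have h2 := as_sum_two Q (X 0 : MvPolynomial (Fin 2) K) (X 1)
    have h3 : (aeval ![(X 0 : MvPolynomial (Fin 2) K), X 1]) Q = Q := by
      have : ![(X 0 : MvPolynomial (Fin 2) K), X 1] = X := by
        funext i
        fin_cases i <;> rfl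
      rw [this, aeval_X_left_apply]
    rw [← h3, h2, ← h1]
    refine sum_congr rfl fun m _ => ?_
    simp [algebraMap_eq]
  · intro t ht h
    have h1 := as_sum_two Q (t 1 / t 0) (t 2 / t 0)
    rw [← coe_aeval_eq_eval, RingHom.coe_coe] at h
    rw [h] at h1
    rw [map_sum]
    have h2 : ∀ m ∈ Q.support, eval t (C (coeff m Q) *
        (X 0 ^ (Q.totalDegree - (m 0 + m 1)) * (X 1 ^ m 0 * X 2 ^ m 1))) =
        t 0 ^ Q.totalDegree * (algebraMap K K (coeff m Q) * ((t 1 / t 0) ^ m 0 *
          (t 2 / t 0) ^ m 1)) := by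
      intro m hm
      have h3 : m 0 + m 1 ≤ Q.totalDegree := by
        have := le_totalDegree hm
        rwa [Finsupp.sum_fintype _ _ (fun _ => rfl), Fin.sum_univ_two] at this
      simp only [map_mul, eval_C, map_pow, eval_X, Algebra.algebraMap_self, RingHom.id_apply]
      obtain ⟨e, he⟩ := Nat.exists_eq_add_of_le h3
      rw [he, Nat.add_sub_cancel_left, pow_add, pow_add, div_pow, div_pow]
      field_simp
    rw [sum_congr rfl h2, ← mul_sum, ← h1, mul_zero]

/-- The form in which the dimension bound is used. -/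
theorem dim_le_of_ratios {τ : Type} [Finite τ] (z : ℕ → τ → K)
    (h : ∀ a b c : τ, ∃ Q : MvPolynomial (Fin 2) K, Q ≠ 0 ∧ ∀ n, z n a ≠ 0 →
      eval ![z n b / z n a, z n c / z n a] Q = 0) (I : Ideal (MvPolynomial τ K))
    (hI : ∀ G : MvPolynomial τ K, (∀ (n : ℕ) (k : K), eval (k • z n) G = 0) → G ∈ I) :
    ringKrullDim (MvPolynomial τ K ⧸ I) ≤ 2 := by
  refine dim_le_two I fun a b c => ?_
  obtain ⟨Q, hQ, hrel⟩ := h a b c
  obtain ⟨H, hH, hH2⟩ := exists_homog Q hQ
  refine ⟨H, hH, hI _ fun n k => ?_⟩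
  rw [map_mul, eval_X]
  by_cases h0 : (k • z n) a = 0
  · rw [h0, zero_mul]
  · have e : eval (k • z n) (aeval ![(X a : MvPolynomial τ K), X b, X c] H) =
        eval ![k * z n a, k * z n b, k * z n c] H := by
      rw [← coe_aeval_eq_eval, ← coe_aeval_eq_eval, RingHom.coe_coe, RingHom.coe_coe,
        ← AlgHom.comp_apply]
      congr 1
      ext i
      fin_cases i <;> simp
    have hk : k ≠ 0 := fun hk => h0 (by rw [hk, zero_smul]; rfl)
    have hz : z n a ≠ 0 := fun hz => h0 (by rw [Pi.smul_apply, hz, smul_zero])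
    rw [e, hH2 _ (mul_ne_zero hk hz) ?_, mul_zero]
    have h1 := hrel n hz
    have e1 : ![(![k * z n a, k * z n b, k * z n c] : Fin 3 → K) 1 /
        (![k * z n a, k * z n b, k * z n c] : Fin 3 → K) 0,
        (![k * z n a, k * z n b, k * z n c] : Fin 3 → K) 2 /
        (![k * z n a, k * z n b, k * z n c] : Fin 3 → K) 0] =
        ![z n b / z n a, z n c / z n a] := by
      funext i
      fin_cases i
      · exact mul_div_mul_left _ _ hk
      · exact mul_div_mul_left _ _ hk
    rw [e1]
    exact h1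

end Pool.Agent.J6H86.LH
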