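import Pool.Agent.J6H86.LH.Contr

set_option autoImplicit false

/-! Contraction for the orbit of a polynomial map which stays in one residue disc. -/

namespace Pool.Agent.J6H86.LH

open MvPolynomial

variable {A : Type*} [CommRing A] {σ : Type*} [Fintype σ]

theorem disc_contr (π : A) (hπ : ∀ a b : A, π * a = π * b → a = b)
    [Finite (A ⧸ Ideal.span {π})] (Ψ : σ → MvPolynomial σ A) (y : ℕ → σ → A)
    (hy : ∀ m a, y (m + 1) a = eval (y m) (Ψ a))
    (hc : ∀ m a, ∃ z, y m a = y 0 a + π * z) :
    ∃ t > 0, ∀ (P : Polynomial A) (G : MvPolynomial σ A) (n m : ℕ), ∃ a : A,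
      (E t)^[n] (fun m => P.eval (m : A) * eval (y m) G) m = π ^ n * a := by
  classical
  choose z hz using hc
  set c := y 0 with hcdef
  have hev : ∀ m (G : MvPolynomial σ A),
      eval (y m) G = eval (z m) (bind₁ (fun b => C (c b) + C π * X b) G) := by
    intro m G
    have h1 : y m = fun a => eval (z m) (C (c a) + C π * X a) := by
      funext a
      rw [hz m a]
      simp
    conv_lhs => rw [h1]
    rw [← coe_aeval_eq_eval, ← coe_aeval_eq_eval, RingHom.coe_coe, RingHom.coe_coe, aeval_bind₁]
  have htay : ∀ a, ∃ (β : σ → A) (h : MvPolynomial σ A),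
      bind₁ (fun b => C (c b) + C π * X b) (Ψ a) =
        C (eval c (Ψ a)) + C π * (∑ b, C (β b) * X b) + C (π ^ 2) * h :=
    fun a => exists_taylor π c (Ψ a)
  choose β h htay using htay
  have hstep : ∀ m a, c a + π * z (m + 1) a =
      eval c (Ψ a) + π * (∑ b, β a b * z m b) + π ^ 2 * eval (z m) (h a) := by
    intro m a
    rw [← hz, hy, hev, htay]
    simp [map_sum]
  set δ : σ → A := fun a => z 1 a - (∑ b, β a b * z 0 b) - π * eval (z 0) (h a) with hδ
  have hδ' : ∀ a, eval c (Ψ a) = c a + π * δ a := by
    intro a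
    have h1 := hstep 0 a
    rw [zero_add] at h1
    simp only [hδ]
    linear_combination -h1
  have hzstep : ∀ m a, z (m + 1) a = δ a + ∑ b, β a b * z m b + π * eval (z m) (h a) := by
    intro m a
    apply hπ
    have h1 := hstep m a
    rw [hδ' a] at h1
    linear_combination h1
  -- the extended system
  let Z : ℕ → Option σ → A := fun m o => o.elim (m : A) (z m)
  let p : Option σ → A × (Option σ → A) := fun o =>
    o.elim (1, fun o' => o'.elim 1 fun _ => 0) fun a => (δ a, fun o' => o'.elim 0 (β a))
  let h' : Option σ → MvPolynomial (Option σ) A := fun o => o.elim 0 fun a => rename some (h a)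
  have hZ : ∀ m o, Z (m + 1) o = eval (Z m) (aff (p o) + C π * h' o) := by
    intro m o
    cases o with
    | none =>
      simp [Z, p, h', aff, Fintype.sum_option]
      ring
    | some a =>
      have e1 : eval (Z m) (rename some (h a)) = eval (z m) (h a) := by
        rw [eval_rename]
        rfl
      simp only [Z, p, h', aff, map_add, map_mul, map_sum, eval_C, eval_X, Fintype.sum_option,
        Option.elim_some, Option.elim_none, zero_mul, zero_add, e1, map_zero]
      rw [hzstep m a]
  obtain ⟨t, ht, H⟩ := exists_contr π p h' Z hZ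
  refine ⟨t, ht, fun P G n m => ?_⟩
  obtain ⟨g', hg'⟩ := H (Polynomial.aeval (X none : MvPolynomial (Option σ) A) P *
    rename some (bind₁ (fun b => C (c b) + C π * X b) G)) n
  refine ⟨eval (Z m) g', ?_⟩
  rw [← hg' m]
  refine congrFun (congrArg _ ?_) m
  funext m
  rw [map_mul, eval_rename, hev]
  have h1 : eval (Z m) (Polynomial.aeval (X none : MvPolynomial (Option σ) A) P) =
      Polynomial.aeval (eval (Z m) (X none : MvPolynomial (Option σ) A)) P := by
    rw [← coe_aeval_eq_eval, RingHom.coe_coe, ← Polynomial.aeval_algHom_apply]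
  rw [h1, eval_X, Polynomial.coe_aeval_eq_eval]
  rfl

end Pool.Agent.J6H86.LH
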