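import Pool.Agent.J6H86.LH.Cert
import Pool.Agent.J6H86.LH.Local

set_option autoImplicit false

/-! The gap for heights along orbits of morphisms of quasi-projective varieties. -/

namespace Pool.Agent.J6H86.LH

open Height AdmissibleAbsValues Filter
open scoped Nat Polynomial Polynomial.Bivariate

variable {K : Type*} [Field K] {σ τ ι κ : Type*}

section Units

variable {v : AbsoluteValue K ℝ} {O : Subring K} {π : O}

lemma mk_ne_iff (hO : ∀ x, x ∈ O ↔ v x ≤ 1) (hπ1 : v π < 1) (hdvd : ∀ x : O, v x < 1 → π ∣ x)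
    (a : O) : Ideal.Quotient.mk (Ideal.span {π}) a ≠ 0 ↔ v (a : K) = 1 := by
  rw [Ne, Ideal.Quotient.eq_zero_iff_mem, Ideal.mem_span_singleton]
  constructor
  · intro h
    refine le_antisymm ((hO _).1 a.2) ?_
    by_contra hlt
    push Not at hlt
    exact h (hdvd _ hlt)
  · rintro h ⟨w, hw⟩
    rw [hw, Subring.coe_mul, v.map_mul] at h
    have h5 : v (w : K) ≤ 1 := (hO _).1 w.2
    have h6 : v (π : K) * v (w : K) < 1 := by
      calc v (π : K) * v (w : K) ≤ v (π : K) * 1 := mul_le_mul_of_nonneg_left h5 (v.nonneg _)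
        _ < 1 := by rw [mul_one]; exact hπ1
    rw [h] at h6
    exact lt_irrefl _ h6

lemma unit_transfer [Fintype ι] {P : Ideal (MvPolynomial σ K)}
    (hO : ∀ x, x ∈ O ↔ v x ≤ 1) (hπ1 : v π < 1) (hdvd : ∀ x : O, v x < 1 → π ∣ x)
    (A : MvPolynomial σ O) (B : ι → MvPolynomial σ O) (e : ℕ) (Q : ι → MvPolynomial σ O)
    (hcert : MvPolynomial.map O.subtype A ^ e -
      ∑ x, MvPolynomial.map O.subtype (Q x) * MvPolynomial.map O.subtype (B x) ∈ P)
    (y : σ → O) (hY : ∀ G ∈ P, MvPolynomial.eval (fun l => (y l : K)) G = 0)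
    (hA : v ((MvPolynomial.eval y A : O) : K) = 1) :
    ∃ i, v ((MvPolynomial.eval y (B i) : O) : K) = 1 := by
  classical
  by_contra hcon
  push Not at hcon
  have h1 : ∀ x, π ∣ MvPolynomial.eval y (B x) := by
    intro x
    by_contra h
    apply hcon x
    rw [← mk_ne_iff hO hπ1 hdvd, Ne, Ideal.Quotient.eq_zero_iff_mem, Ideal.mem_span_singleton]
    exact h
  have h2 : (MvPolynomial.eval y A) ^ e =
      ∑ x, MvPolynomial.eval y (Q x) * MvPolynomial.eval y (B x) := by
    apply Subtype.ext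
    have h3 := hY _ hcert
    rw [map_sub, map_pow, map_sum, sub_eq_zero, ← eval_coe] at h3
    change ((MvPolynomial.eval y A ^ e : O) : K) =
      O.subtype (∑ x, MvPolynomial.eval y (Q x) * MvPolynomial.eval y (B x))
    rw [map_sum, Subring.coe_pow, h3]
    refine Finset.sum_congr rfl fun x _ => ?_
    rw [map_mul, map_mul, ← eval_coe, ← eval_coe]
    rfl
  have h3 : π ∣ (MvPolynomial.eval y A) ^ e := by
    rw [h2]
    exact Finset.dvd_sum fun x _ => Dvd.dvd.mul_left (h1 x) _
  have h4 : v (((MvPolynomial.eval y A) ^ e : O) : K) = 1 := by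
    rw [Subring.coe_pow, map_pow, hA, one_pow]
  rw [← mk_ne_iff hO hπ1 hdvd, Ne, Ideal.Quotient.eq_zero_iff_mem, Ideal.mem_span_singleton] at h4
  exact h4 h3

end Units

lemma exists_cert' [Finite σ] [Fintype ι] (P : Ideal (MvPolynomial σ K))
    (A : MvPolynomial σ K) (B : ι → MvPolynomial σ K)
    (h : ∀ p : σ → AlgebraicClosure K, (∀ G ∈ P, MvPolynomial.aeval p G = 0) →
      (∀ i, MvPolynomial.aeval p (B i) = 0) → MvPolynomial.aeval p A = 0) :
    ∃ (e : ℕ) (Q : ι → MvPolynomial σ K), A ^ e - ∑ x, Q x * B x ∈ P := by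
  classical
  set I : Ideal (MvPolynomial σ K) := P ⊔ Ideal.span (Set.range B) with hI
  have h1 : A ∈ MvPolynomial.vanishingIdeal K
      (MvPolynomial.zeroLocus (AlgebraicClosure K) I) := by
    intro w hw
    exact h w (fun G hG => hw G (Ideal.mem_sup_left hG))
      fun i => hw _ (Ideal.mem_sup_right (Ideal.subset_span ⟨i, rfl⟩))
  rw [MvPolynomial.vanishingIdeal_zeroLocus_eq_radical] at h1
  obtain ⟨e, he⟩ := h1
  rw [hI, Submodule.mem_sup] at he
  obtain ⟨R, hR, T, hT, hRT⟩ := he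
  obtain ⟨Q, hQ⟩ := Ideal.mem_span_range_iff_exists_fun.1 hT
  refine ⟨e, Q, ?_⟩
  rw [hQ, ← hRT]
  simpa using hR

lemma exists_prop {F : τ → MvPolynomial σ K} {d : ℕ} (hF : ∀ a, (F a).IsHomogeneous d)
    (x : σ → K) (y : τ → K) (hy : y ≠ 0)
    (h : ∀ a b, MvPolynomial.eval x (F a) * y b = MvPolynomial.eval x (F b) * y a) (c : K)
    (hne : ∃ a, MvPolynomial.eval (fun l => c * x l) (F a) ≠ 0) :
    ∃ μ : K, μ ≠ 0 ∧ ∀ a, MvPolynomial.eval (fun l => c * x l) (F a) = μ * y a := by
  obtain ⟨b, hb⟩ := Function.ne_iff.1 hy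
  have hb' : y b ≠ 0 := hb
  have h1 : ∀ a, MvPolynomial.eval (fun l => c * x l) (F a) =
      (c ^ d * (MvPolynomial.eval x (F b) / y b)) * y a := by
    intro a
    rw [eval_scale _ d (hF a)]
    have h2 := h a b
    field_simp
    linear_combination (c ^ d) * h2
  refine ⟨_, ?_, h1⟩
  intro h0
  obtain ⟨a, ha⟩ := hne
  rw [h1 a, h0, zero_mul] at ha
  exact ha rfl

/-- Relations on residue classes give a relation everywhere. -/
lemma rel_global [CharZero K] (u w : ℕ → K) (n₀ r : ℕ) (hr : 0 < r)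
    (h : ∀ s ≥ n₀, ∃ R : K[X][Y], R ≠ 0 ∧ ∀ m : ℕ, u (s + r * m) ≠ 0 →
      R.evalEval (m : K) (w (s + r * m) / u (s + r * m)) = 0) :
    ∃ R : K[X][Y], R ≠ 0 ∧ ∀ n : ℕ, u n ≠ 0 → R.evalEval (n : K) (w n / u n) = 0 := by
  classical
  have h' : ∀ s : ℕ, ∃ R : K[X][Y], R ≠ 0 ∧ ∀ m : ℕ, u (n₀ + s + r * m) ≠ 0 →
      R.evalEval (((n₀ + s + r * m : ℕ)) : K)
        (w (n₀ + s + r * m) / u (n₀ + s + r * m)) = 0 := by
    intro s
    obtain ⟨R, hR, hrel⟩ := h (n₀ + s) (by omega)
    have hrK : (r : K) ≠ 0 := by exact_mod_cast hr.ne'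
    let L : K[X] := Polynomial.C (r : K)⁻¹ * (Polynomial.X - Polynomial.C ((n₀ + s : ℕ) : K))
    let ψ : K[X] →+* K[X] := Polynomial.compRingHom L
    have hψinj : Function.Injective ψ := by
      rw [injective_iff_map_eq_zero]
      intro p hp
      have h1 : p.comp L = 0 := hp
      rw [Polynomial.comp_eq_zero_iff] at h1
      rcases h1 with h1 | h1
      · exact h1
      · exfalso
        have h2 := congrArg (fun q => Polynomial.coeff q 1) h1.2
        simp [L, Polynomial.coeff_C_mul, Polynomial.coeff_X, Polynomial.coeff_C] at h2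
        exact hr.ne' h2
    refine ⟨R.map ψ, (Polynomial.map_ne_zero_iff hψinj).2 hR, fun m hm => ?_⟩
    have h1 := hrel m hm
    have h2 : Polynomial.eval (((n₀ + s + r * m : ℕ)) : K) L = (m : K) := by
      simp only [L, Polynomial.eval_mul, Polynomial.eval_C, Polynomial.eval_sub,
        Polynomial.eval_X]
      push_cast
      field_simp
      ring
    rw [← h1, Polynomial.evalEval, Polynomial.evalEval,
      Polynomial.eval_eq_sum_range (p := Polynomial.map ψ R),
      Polynomial.natDegree_map_eq_of_injective hψinj, Polynomial.eval_eq_sum_range (p := R),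
      Polynomial.eval_finsetSum, Polynomial.eval_finsetSum]
    refine Finset.sum_congr rfl fun i _ => ?_
    rw [Polynomial.coeff_map, Polynomial.eval_mul, Polynomial.eval_pow, Polynomial.eval_C,
      Polynomial.eval_mul, Polynomial.eval_pow, Polynomial.eval_C]
    congr 1
    change Polynomial.eval _ ((R.coeff i).comp L) = _
    rw [Polynomial.eval_comp, h2]
  choose R hR hrel using h'
  refine ⟨(∏ s ∈ Finset.range r, R s) *
    ∏ n ∈ Finset.range n₀, (Polynomial.C (Polynomial.X - Polynomial.C (n : K))), ?_, ?_⟩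
  · apply mul_ne_zero
    · exact Finset.prod_ne_zero_iff.2 fun s _ => hR s
    · refine Finset.prod_ne_zero_iff.2 fun n _ => ?_
      rw [Ne, Polynomial.C_eq_zero]
      exact Polynomial.X_sub_C_ne_zero _
  · intro n hn
    have hprod : ∀ (s : Finset ℕ) (f : ℕ → K[X][Y]) (t ρ : K),
        (∏ i ∈ s, f i).evalEval t ρ = ∏ i ∈ s, (f i).evalEval t ρ := by
      intro s f t ρ
      simp only [Polynomial.evalEval, Polynomial.eval_prod]
    rw [Polynomial.evalEval_mul, hprod, hprod]
    by_cases hlt : n < n₀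
    · apply mul_eq_zero_of_right
      apply Finset.prod_eq_zero (Finset.mem_range.2 hlt)
      rw [Polynomial.evalEval_C]
      simp
    · apply mul_eq_zero_of_left
      push Not at hlt
      have hs : (n - n₀) % r < r := Nat.mod_lt _ hr
      apply Finset.prod_eq_zero (Finset.mem_range.2 hs)
      have hdecomp : n₀ + (n - n₀) % r + r * ((n - n₀) / r) = n := by
        have := Nat.mod_add_div (n - n₀) r
        omega
      have h3 := hrel ((n - n₀) % r) ((n - n₀) / r)
      rw [hdecomp] at h3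
      exact h3 hn

end Pool.Agent.J6H86.LH
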