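import Pool.Agent.J6H86.LH.Global

set_option autoImplicit false

/-! The gap theorem for heights along orbits. -/

namespace Pool.Agent.J6H86.LH

open Height AdmissibleAbsValues Filter MvPolynomial
open scoped Nat

variable {K : Type*} [Field K] {σ τ ι κ : Type*}

/-- a nonzero vector in a field over `K` where all elements of `P` vanish and some element of `J`
does not -/
def Pt (P J : Ideal (MvPolynomial σ K)) {L : Type*} [Field L] [Algebra K L] (p : σ → L) : Prop :=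
  p ≠ 0 ∧ (∀ G ∈ P, aeval p G = 0) ∧ ∃ G ∈ J, aeval p G ≠ 0

lemma res_ne {v : AbsoluteValue K ℝ} {O : Subring K} {π : O}
    (hO : ∀ x, x ∈ O ↔ v x ≤ 1) (hπ1 : v π < 1) (hdvd : ∀ x : O, v x < 1 → π ∣ x)
    (y : τ → O) : res π y ≠ 0 ↔ ∃ a, v (y a : K) = 1 := by
  rw [Function.ne_iff]
  refine exists_congr fun a => ?_
  exact mk_ne_iff hO hπ1 hdvd (y a)

open scoped Polynomial Polynomial.Bivariate in
theorem rel_of_slow [NumberField K] [Fintype σ] [Fintype τ] [Fintype ι] [Fintype κ]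
    (P J : Ideal (MvPolynomial σ K)) (hP : ∀ G ∈ P, ∀ n, homogeneousComponent n G ∈ P)
    (F : ι → σ → MvPolynomial σ K) (g : κ → τ → MvPolynomial σ K)
    (hFd : ∀ i, ∃ d, ∀ a, (F i a).IsHomogeneous d)
    (hgd : ∀ i, ∃ d, ∀ a, (g i a).IsHomogeneous d)
    (hF : ∀ p : σ → AlgebraicClosure K, Pt P J p → ∃ i a, aeval p (F i a) ≠ 0)
    (hg : ∀ p : σ → AlgebraicClosure K, Pt P J p → ∃ i a, aeval p (g i a) ≠ 0)
    (hmaps : ∀ p : σ → AlgebraicClosure K, Pt P J p → ∀ i, (∃ a, aeval p (F i a) ≠ 0) →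
      Pt P J fun a => aeval p (F i a))
    (x : ℕ → σ → K) (hx : ∀ n, Pt P J (x n))
    (hf : ∀ n i a b, eval (x n) (F i a) * x (n + 1) b = eval (x n) (F i b) * x (n + 1) a)
    (z : ℕ → τ → K) (hz0 : ∀ n, z n ≠ 0)
    (hz : ∀ n i a b, eval (x n) (g i a) * z n b = eval (x n) (g i b) * z n a)
    (hslow : ∀ ε : ℝ, 0 < ε → ∀ᶠ n : ℕ in atTop, logHeight (z n) < ε * (n : ℝ)) (l l' : τ) :
    ∃ R : K[X][Y], R ≠ 0 ∧ ∀ n : ℕ, z n l ≠ 0 → R.evalEval (n : K) (z n l' / z n l) = 0 := by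
  classical
  -- generators of `J`
  obtain ⟨T, hT⟩ : ∃ T : Finset (MvPolynomial σ K), Ideal.span (T : Set (MvPolynomial σ K)) = J :=
    (isNoetherian_def.1 inferInstance J)
  have hJT : ∀ {L : Type _} [Field L] [Algebra K L] (p : σ → L),
      (∃ G ∈ J, aeval p G ≠ 0) → ∃ t : T, aeval p (t : MvPolynomial σ K) ≠ 0 := by
    intro L _ _ p hG
    obtain ⟨G, hG, hne⟩ := hG
    by_contra hcon
    push Not at hcon
    apply hne
    have h1 : J ≤ RingHom.ker (aeval p : MvPolynomial σ K →ₐ[K] L) := by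
      rw [← hT, Ideal.span_le]
      intro t ht
      exact hcon ⟨t, ht⟩
    exact h1 hG
  have hTJ : ∀ t : T, (t : MvPolynomial σ K) ∈ J := fun t => by
    rw [← hT]
    exact Ideal.subset_span t.2
  -- certificates
  have c1 : ∀ y : σ × T, ∃ (e : ℕ) (Q : ι × σ → MvPolynomial σ K),
      (X y.1 * (y.2 : MvPolynomial σ K)) ^ e - ∑ w, Q w * F w.1 w.2 ∈ P := fun y =>
    exists_cert' P _ (fun w : ι × σ => F w.1 w.2) fun p hpP hpF => by
      by_contra hne
      rw [map_mul, aeval_X] at hne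
      obtain ⟨i, a, hia⟩ := hF p ⟨fun h0 => left_ne_zero_of_mul hne (by rw [h0]; rfl), hpP,
        _, hTJ y.2, right_ne_zero_of_mul hne⟩
      exact hia (hpF (i, a))
  have c3 : ∀ y : σ × T, ∃ (e : ℕ) (Q : κ × τ → MvPolynomial σ K),
      (X y.1 * (y.2 : MvPolynomial σ K)) ^ e - ∑ w, Q w * g w.1 w.2 ∈ P := fun y =>
    exists_cert' P _ (fun w : κ × τ => g w.1 w.2) fun p hpP hpF => by
      by_contra hne
      rw [map_mul, aeval_X] at hne
      obtain ⟨i, a, hia⟩ := hg p ⟨fun h0 => left_ne_zero_of_mul hne (by rw [h0]; rfl), hpP,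
        _, hTJ y.2, right_ne_zero_of_mul hne⟩
      exact hia (hpF (i, a))
  have c2 : ∀ y : (ι × σ) × (σ × T), ∃ (e : ℕ) (Q : T → MvPolynomial σ K),
      (F y.1.1 y.1.2 * (X y.2.1 * (y.2.2 : MvPolynomial σ K))) ^ e -
        ∑ w, Q w * bind₁ (F y.1.1) (w : MvPolynomial σ K) ∈ P := fun y =>
    exists_cert' P _ (fun w : T => bind₁ (F y.1.1) (w : MvPolynomial σ K)) fun p hpP hpF => by
      by_contra hne
      rw [map_mul, map_mul, aeval_X] at hne
      have hne2 := right_ne_zero_of_mul hne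
      have hpt : Pt P J p := ⟨fun h0 => left_ne_zero_of_mul hne2 (by rw [h0]; rfl), hpP,
        _, hTJ y.2.2, right_ne_zero_of_mul hne2⟩
      obtain ⟨t, ht⟩ := hJT _ (hmaps p hpt y.1.1 ⟨y.1.2, left_ne_zero_of_mul hne⟩).2.2
      apply ht
      have := hpF t
      rwa [aeval_bind₁] at this
  choose e1 Q1 hc1 using c1
  choose e2 Q2 hc2 using c2
  choose e3 Q3 hc3 using c3
  obtain ⟨t₀, ht₀⟩ := hJT _ (hx 0).2.2
  have ht₀' : eval (x 0) (t₀ : MvPolynomial σ K) ≠ 0 := ht₀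
  let S : Set K := (⋃ w : ι × σ, ((F w.1 w.2).coeffs : Set K)) ∪
    ((⋃ w : κ × τ, ((g w.1 w.2).coeffs : Set K)) ∪
    ((⋃ t : T, ((t : MvPolynomial σ K).coeffs : Set K)) ∪
    ((⋃ y, ⋃ w, ((Q1 y w).coeffs : Set K)) ∪
    ((⋃ y, ⋃ w, ((Q2 y w).coeffs : Set K)) ∪
    ((⋃ y, ⋃ w, ((Q3 y w).coeffs : Set K)) ∪
    (Set.range (x 0) ∪ {eval (x 0) (t₀ : MvPolynomial σ K)}))))))
  have hS : S.Finite := by
    refine (Set.finite_iUnion fun _ => Finset.finite_toSet _).union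
      ((Set.finite_iUnion fun _ => Finset.finite_toSet _).union
      ((Set.finite_iUnion fun _ => Finset.finite_toSet _).union
      ((Set.finite_iUnion fun _ => Set.finite_iUnion fun _ => Finset.finite_toSet _).union
      ((Set.finite_iUnion fun _ => Set.finite_iUnion fun _ => Finset.finite_toSet _).union
      ((Set.finite_iUnion fun _ => Set.finite_iUnion fun _ => Finset.finite_toSet _).union
      ((Set.finite_range _).union (Set.finite_singleton _)))))))
  obtain ⟨v, O, π, hvmem, hO, hπ0, hπ1, hdvd, hfin, hSv, c, hc, hfac⟩ := exists_place S hS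
  have hSO : ∀ s ∈ S, s ∈ O := fun s hs => by
    rw [hO]
    by_cases h0 : s = 0
    · rw [h0, v.map_zero]; exact zero_le_one
    · exact (hSv s hs h0).le
  choose F' hF' using fun i a => exists_lift O (F i a) (fun s hs => hSO s
    (Or.inl (Set.mem_iUnion.2 ⟨(i, a), hs⟩)))
  choose g' hg' using fun i a => exists_lift O (g i a) (fun s hs => hSO s
    (Or.inr (Or.inl (Set.mem_iUnion.2 ⟨(i, a), hs⟩))))
  choose T' hT' using fun t : T => exists_lift O (t : MvPolynomial σ K) (fun s hs => hSO s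
    (Or.inr (Or.inr (Or.inl (Set.mem_iUnion.2 ⟨t, hs⟩)))))
  choose Q1' hQ1' using fun y w => exists_lift O (Q1 y w) (fun s hs => hSO s
    (Or.inr (Or.inr (Or.inr (Or.inl (Set.mem_iUnion₂.2 ⟨y, w, hs⟩))))))
  choose Q2' hQ2' using fun y w => exists_lift O (Q2 y w) (fun s hs => hSO s
    (Or.inr (Or.inr (Or.inr (Or.inr (Or.inl (Set.mem_iUnion₂.2 ⟨y, w, hs⟩)))))))
  choose Q3' hQ3' using fun y w => exists_lift O (Q3 y w) (fun s hs => hSO s
    (Or.inr (Or.inr (Or.inr (Or.inr (Or.inr (Or.inl (Set.mem_iUnion₂.2 ⟨y, w, hs⟩))))))))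
  have hx0S : ∀ a, x 0 a ∈ S := fun a =>
    Or.inr (Or.inr (Or.inr (Or.inr (Or.inr (Or.inr (Or.inl ⟨a, rfl⟩))))))
  have ht0S : eval (x 0) (t₀ : MvPolynomial σ K) ∈ S :=
    Or.inr (Or.inr (Or.inr (Or.inr (Or.inr (Or.inr (Or.inr rfl))))))
  -- the predicate on residues
  let q : O →+* O ⧸ Ideal.span {π} := Ideal.Quotient.mk _
  let Good : (σ → O ⧸ Ideal.span {π}) → Prop := fun ξ =>
    (∃ a, ξ a ≠ 0) ∧ ∃ t : T, eval ξ (map q (T' t)) ≠ 0
  have hGood : ∀ y : σ → O, Good (res π y) ↔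
      (∃ a, v (y a : K) = 1) ∧ ∃ t : T, v ((eval y (T' t) : O) : K) = 1 := by
    intro y
    refine and_congr (exists_congr fun a => mk_ne_iff hO hπ1 hdvd (y a))
      (exists_congr fun t => ?_)
    rw [← mk_ne_iff hO hπ1 hdvd]
    have h1 := congrFun (res_val π (fun _ : Unit => T' t) y) ()
    have h2 : eval (res π y) (map q (T' t)) = Ideal.Quotient.mk (Ideal.span {π})
        (eval y (T' t)) := h1.symm
    rw [h2]
  let Pr : ℕ → (σ → O) → Prop := fun n y => ∃ μ : K, μ ≠ 0 ∧ ∀ a, (y a : K) = μ * x n a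
  have hPrV : ∀ n y, Pr n y → ∀ G ∈ P, eval (fun l => (y l : K)) G = 0 := by
    rintro n y ⟨μ, -, h⟩ G hG
    have h1 : (fun l => (y l : K)) = fun l => μ * x n l := funext h
    rw [h1]
    exact eval_scale_mem hP (x n) (fun G hG => (hx n).2.1 G hG) μ G hG
  -- transfer of units
  have unitXT : ∀ y : σ → O, Good (res π y) → ∃ w : σ × T,
      v ((eval y (X w.1 * T' w.2) : O) : K) = 1 := by
    intro y hy
    obtain ⟨⟨a, ha⟩, ⟨t, ht⟩⟩ := (hGood y).1 hy
    refine ⟨(a, t), ?_⟩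
    rw [map_mul, eval_X, Subring.coe_mul, v.map_mul, ha, ht, one_mul]
  have stepF : ∀ n y, Pr n y → Good (res π y) → ∃ i, res π (val (F' i) y) ≠ 0 := by
    intro n y hPr hy
    obtain ⟨w, hw⟩ := unitXT y hy
    obtain ⟨u, hu⟩ := unit_transfer hO hπ1 hdvd (X w.1 * T' w.2)
      (fun u : ι × σ => F' u.1 u.2) (e1 w) (Q1' w) (by
        simp only [map_mul, map_X, hT', hQ1', hF']
        exact hc1 w) y (hPrV n y hPr) hw
    exact ⟨u.1, (res_ne hO hπ1 hdvd _).2 ⟨u.2, hu⟩⟩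
  have stepg : ∀ n y, Pr n y → Good (res π y) → ∃ i, res π (val (g' i) y) ≠ 0 := by
    intro n y hPr hy
    obtain ⟨w, hw⟩ := unitXT y hy
    obtain ⟨u, hu⟩ := unit_transfer hO hπ1 hdvd (X w.1 * T' w.2)
      (fun u : κ × τ => g' u.1 u.2) (e3 w) (Q3' w) (by
        simp only [map_mul, map_X, hT', hQ3', hg']
        exact hc3 w) y (hPrV n y hPr) hw
    exact ⟨u.1, (res_ne hO hπ1 hdvd _).2 ⟨u.2, hu⟩⟩
  have stepGood : ∀ n y i, Pr n y → Good (res π y) → res π (val (F' i) y) ≠ 0 →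
      Good (res π (val (F' i) y)) := by
    intro n y i hPr hy hres
    obtain ⟨w, hw⟩ := unitXT y hy
    obtain ⟨a, ha⟩ := (res_ne hO hπ1 hdvd _).1 hres
    have ha' : v ((eval y (F' i a) : O) : K) = 1 := ha
    obtain ⟨t, ht⟩ := unit_transfer hO hπ1 hdvd (F' i a * (X w.1 * T' w.2))
      (fun t : T => bind₁ (F' i) (T' t)) (e2 ((i, a), w)) (Q2' ((i, a), w)) (by
        simp only [map_mul, map_X, map_bind₁, hT', hQ2', hF']
        exact hc2 ((i, a), w)) y (hPrV n y hPr)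
      (by rw [map_mul, Subring.coe_mul, v.map_mul, ha', hw, one_mul])
    refine (hGood _).2 ⟨⟨a, ha⟩, t, ?_⟩
    rw [← ht]
    congr 2
    rw [← coe_aeval_eq_eval, ← coe_aeval_eq_eval, RingHom.coe_coe, RingHom.coe_coe, aeval_bind₁]
    rfl
  have hne_of_res : ∀ (y : σ → O) (i : ι), res π (val (F' i) y) ≠ 0 →
      ∃ a, eval (fun l => (y l : K)) (F i a) ≠ 0 := by
    intro y i h
    obtain ⟨a, ha⟩ := (res_ne hO hπ1 hdvd _).1 h
    refine ⟨a, fun h0 => ?_⟩
    rw [← hF', ← eval_coe] at h0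
    have h1 : v ((eval y (F' i a) : O) : K) = 1 := ha
    rw [h0, v.map_zero] at h1
    exact zero_ne_one h1
  have hne_of_resg : ∀ (y : σ → O) (i : κ), res π (val (g' i) y) ≠ 0 →
      ∃ a, eval (fun l => (y l : K)) (g i a) ≠ 0 := by
    intro y i h
    obtain ⟨a, ha⟩ := (res_ne hO hπ1 hdvd _).1 h
    refine ⟨a, fun h0 => ?_⟩
    rw [← hg', ← eval_coe] at h0
    have h1 : v ((eval y (g' i a) : O) : K) = 1 := ha
    rw [h0, v.map_zero] at h1
    exact zero_ne_one h1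
  let X₀ : σ → O := fun a => ⟨x 0 a, hSO _ (hx0S a)⟩
  have hX₀ : Pr 0 X₀ := ⟨1, one_ne_zero, fun a => (one_mul _).symm⟩
  have hX₀' : Good (res π X₀) := by
    rw [hGood]
    constructor
    · obtain ⟨a, ha⟩ := Function.ne_iff.1 (hx 0).1
      exact ⟨a, hSv _ (hx0S a) ha⟩
    · refine ⟨t₀, ?_⟩
      rw [eval_coe, hT']
      exact hSv _ ht0S ht₀'
  obtain ⟨y, hy, n₀, r, hr, hcls⟩ := exists_orbit π F' g' Pr Good X₀ hX₀ hX₀' stepF
    (fun n y i hPr hG hres => by
      refine ⟨?_, stepGood n y i hPr hG hres⟩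
      obtain ⟨μ, hμ, h⟩ := hPr
      obtain ⟨d, hd⟩ := hFd i
      have e1 : (fun l => (y l : K)) = fun l => μ * x n l := funext h
      obtain ⟨a, ha⟩ := hne_of_res y i hres
      rw [e1] at ha
      obtain ⟨ν, hν, h2⟩ := exists_prop hd (x n) (x (n + 1)) (hx (n + 1)).1
        (fun a b => hf n i a b) μ ⟨a, ha⟩
      refine ⟨ν, hν, fun a => ?_⟩
      rw [← h2 a, ← e1, ← hF', ← eval_coe]
      rfl)
    stepg
  refine rel_global (fun n => z n l) (fun n => z n l') n₀ r hr fun s hs => ?_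
  obtain ⟨j, Ψ, hΨ, hΨc, hj⟩ := hcls s hs
  -- comparison of the values of `g` with `z`
  have hcmp : ∀ m, ∃ ν : K, ν ≠ 0 ∧ ∀ l, ((val (g' j) (y (s + r * m)) l : O) : K) =
      ν * z (s + r * m) l := by
    intro m
    obtain ⟨μ, hμ, h⟩ := (hy (s + r * m)).1
    obtain ⟨d, hd⟩ := hgd j
    have e1 : (fun l => (y (s + r * m) l : K)) = fun l => μ * x (s + r * m) l := funext h
    obtain ⟨a, ha⟩ := hne_of_resg (y (s + r * m)) j (hj m)
    rw [e1] at ha
    obtain ⟨ν, hν, h2⟩ := exists_prop hd (x (s + r * m)) (z (s + r * m)) (hz0 _)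
      (fun a b => hz _ j a b) μ ⟨a, ha⟩
    refine ⟨ν, hν, fun a => ?_⟩
    rw [← h2 a, ← e1, ← hg', ← eval_coe]
    rfl
  have hheight : ∀ m, logHeight (fun l => ((val (g' j) (y (s + r * m)) l : O) : K)) =
      logHeight (z (s + r * m)) := by
    intro m
    obtain ⟨ν, hν, h3⟩ := hcmp m
    have h4 : (fun l => ((val (g' j) (y (s + r * m)) l : O) : K)) = ν • z (s + r * m) := by
      funext l
      exact h3 l
    rw [h4]
    exact logHeight_smul_eq_logHeight _ hν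
  obtain ⟨R, hR, hrel⟩ := class_rel v hvmem O π hO hπ0 hπ1 hdvd c hc hfac Ψ
    (fun m => y (s + r * m)) hΨ hΨc (g' j) hj (by
      intro ε hε
      have h1 := hslow (ε / (s + r + 1)) (by positivity)
      have htend : Tendsto (fun m : ℕ => s + r * m) atTop atTop := by
        apply tendsto_atTop_mono (f := fun m => m) _ tendsto_id
        intro m
        have : m ≤ r * m := Nat.le_mul_of_pos_left m hr
        exact this.trans (Nat.le_add_left _ _)
      filter_upwards [htend.eventually h1, eventually_ge_atTop 1] with m hm hm1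
      rw [hheight]
      refine hm.trans_le ?_
      have hm1' : (1 : ℝ) ≤ m := by exact_mod_cast hm1
      have h6 : ((s + r * m : ℕ) : ℝ) ≤ (s + r + 1) * m := by
        push_cast
        have : (0 : ℝ) ≤ s := Nat.cast_nonneg _
        nlinarith
      calc ε / (s + r + 1) * ((s + r * m : ℕ) : ℝ) ≤ ε / (s + r + 1) * ((s + r + 1) * m) :=
            mul_le_mul_of_nonneg_left h6 (by positivity)
        _ = ε * m := by field_simp) l l'
  refine ⟨R, hR, fun m hm => ?_⟩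
  obtain ⟨ν, hν, h3⟩ := hcmp m
  have h4 := hrel m (by rw [h3]; exact mul_ne_zero hν hm)
  rw [h3, h3, mul_div_mul_left _ _ hν] at h4
  exact h4

end Pool.Agent.J6H86.LH
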