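import Pool.Agent.J6H86.LH.Disc

set_option autoImplicit false

/-! Orbits given by charts which are selected by residues: they are eventually periodic modulo `π`
and on every residue class of indices they follow one polynomial map. -/

namespace Pool.Agent.J6H86.LH

open MvPolynomial

variable {A : Type*} [CommRing A] {σ τ : Type*} {ι κ : Type*}

/-- the residue vector -/
def res (π : A) {σ : Type*} (X : σ → A) : σ → A ⧸ Ideal.span {π} :=
  fun a => Ideal.Quotient.mk _ (X a)

/-- value of a tuple of polynomials -/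
noncomputable def val {σ τ : Type*} (G : τ → MvPolynomial σ A) (X : σ → A) : τ → A :=
  fun a => eval X (G a)

lemma res_val (π : A) (G : τ → MvPolynomial σ A) (X : σ → A) :
    res π (val G X) = fun a => eval (res π X) (map (Ideal.Quotient.mk (Ideal.span {π})) (G a)) := by
  funext a
  rw [eval_map]
  exact eval₂_comp_left (Ideal.Quotient.mk (Ideal.span {π})) (RingHom.id A) X (G a)

lemma res_val_congr {π : A} (G : τ → MvPolynomial σ A) {X Y : σ → A} (h : res π X = res π Y) :
    res π (val G X) = res π (val G Y) := by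
  rw [res_val, res_val, h]

theorem exists_orbit (π : A) [Finite σ] [Finite (A ⧸ Ideal.span {π})]
    (F : ι → σ → MvPolynomial σ A) (g : κ → τ → MvPolynomial σ A) (P : ℕ → (σ → A) → Prop)
    (Good : (σ → A ⧸ Ideal.span {π}) → Prop)
    (X₀ : σ → A) (h0 : P 0 X₀) (h0' : Good (res π X₀))
    (hF : ∀ n X, P n X → Good (res π X) → ∃ i, res π (val (F i) X) ≠ 0)
    (hFP : ∀ n X i, P n X → Good (res π X) → res π (val (F i) X) ≠ 0 →
      P (n + 1) (val (F i) X) ∧ Good (res π (val (F i) X)))
    (hg : ∀ n X, P n X → Good (res π X) → ∃ j, res π (val (g j) X) ≠ 0) :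
    ∃ X : ℕ → σ → A, (∀ n, P n (X n) ∧ Good (res π (X n))) ∧
      ∃ n₀ r : ℕ, 0 < r ∧ ∀ s ≥ n₀, ∃ (j : κ) (Ψ : σ → MvPolynomial σ A),
        (∀ m a, X (s + r * (m + 1)) a = eval (X (s + r * m)) (Ψ a)) ∧
        (∀ m a, ∃ z, X (s + r * m) a = X (s + r * 0) a + π * z) ∧
        ∀ m, res π (val (g j) (X (s + r * m))) ≠ 0 := by
  classical
  obtain ⟨i₀, -⟩ := hF 0 X₀ h0 h0'
  have : Nonempty ι := ⟨i₀⟩
  -- the chart chosen from the residue vector
  let q : A →+* A ⧸ Ideal.span {π} := Ideal.Quotient.mk _
  let sel : (σ → A ⧸ Ideal.span {π}) → ι := fun ξ =>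
    if h : ∃ i, (fun a => eval ξ (map q (F i a))) ≠ 0 then h.choose else i₀
  have hsel : ∀ X i, res π (val (F i) X) ≠ 0 → res π (val (F (sel (res π X))) X) ≠ 0 := by
    intro X i hi
    have hex : ∃ i, (fun a => eval (res π X) (map q (F i a))) ≠ 0 := by
      refine ⟨i, ?_⟩
      rw [← res_val]
      exact hi
    rw [res_val]
    have h1 : sel (res π X) = hex.choose := dif_pos hex
    rw [h1]
    exact hex.choose_spec
  let step : (σ → A) → (σ → A) := fun X => val (F (sel (res π X))) X
  let X : ℕ → σ → A := fun n => step^[n] X₀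
  have hX0 : X 0 = X₀ := rfl
  have hXs : ∀ n, X (n + 1) = val (F (sel (res π (X n)))) (X n) := fun n =>
    Function.iterate_succ_apply' step n X₀
  have hP : ∀ n, P n (X n) ∧ Good (res π (X n)) := by
    intro n
    induction n with
    | zero => exact ⟨h0, h0'⟩
    | succ n ih =>
      obtain ⟨i, hi⟩ := hF n (X n) ih.1 ih.2
      have h1 := hsel _ _ hi
      rw [hXs]
      exact hFP n (X n) _ ih.1 ih.2 h1
  refine ⟨X, hP, ?_⟩
  -- periodicity of the residues
  have hres : ∀ n m, res π (X n) = res π (X m) → res π (X (n + 1)) = res π (X (m + 1)) := by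
    intro n m h
    rw [hXs, hXs, h]
    exact res_val_congr _ h
  have hres' : ∀ n m l, res π (X n) = res π (X m) → res π (X (n + l)) = res π (X (m + l)) := by
    intro n m l h
    induction l with
    | zero => exact h
    | succ l ih => exact hres _ _ ih
  obtain ⟨i, j, hne, hij⟩ := Finite.exists_ne_map_eq_of_infinite (fun n : ℕ => res π (X n))
  obtain ⟨n₀, r, hr, hper⟩ : ∃ n₀ r : ℕ, 0 < r ∧ ∀ n ≥ n₀, res π (X (n + r)) = res π (X n) := by
    have key : ∀ i j : ℕ, i < j → res π (X i) = res π (X j) →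
        ∃ n₀ r : ℕ, 0 < r ∧ ∀ n ≥ n₀, res π (X (n + r)) = res π (X n) := by
      intro i j hlt h
      refine ⟨i, j - i, by omega, fun n hn => ?_⟩
      have h1 := hres' i j (n - i) h
      have e1 : i + (n - i) = n := by omega
      have e2 : j + (n - i) = n + (j - i) := by omega
      rw [e1, e2] at h1
      exact h1.symm
    rcases lt_or_gt_of_ne hne with h | h
    · exact key i j h hij
    · exact key j i h hij.symm
  refine ⟨n₀, r, hr, fun s hs => ?_⟩
  have hcls : ∀ l m, res π (X (s + l + r * m)) = res π (X (s + l)) := by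
    intro l m
    induction m with
    | zero => simp
    | succ m ih =>
      have e1 : s + l + r * (m + 1) = s + l + r * m + r := by ring
      rw [e1, hper _ (by omega), ih]
  obtain ⟨j, hj⟩ := hg s (X s) (hP s).1 (hP s).2
  -- the composite map
  let Φ : ℕ → σ → MvPolynomial σ A := fun l => Nat.rec (fun a => (MvPolynomial.X a))
    (fun l Q => fun a => bind₁ Q (F (sel (res π (X (s + l)))) a)) l
  have hΦ0 : ∀ a, Φ 0 a = MvPolynomial.X a := fun _ => rfl
  have hΦs : ∀ l a, Φ (l + 1) a = bind₁ (Φ l) (F (sel (res π (X (s + l)))) a) := fun _ _ => rfl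
  have hcomp : ∀ m l a, X (s + r * m + l) a = eval (X (s + r * m)) (Φ l a) := by
    intro m l
    induction l with
    | zero => intro a; rw [hΦ0]; simp
    | succ l ih =>
      intro a
      rw [← add_assoc, hXs, hΦs]
      have e1 : s + r * m + l = s + l + r * m := by ring
      rw [e1, hcls, ← e1]
      simp only [val]
      have e2 : X (s + r * m + l) = fun a => eval (X (s + r * m)) (Φ l a) := funext ih
      rw [e2, ← coe_aeval_eq_eval, ← coe_aeval_eq_eval, RingHom.coe_coe, RingHom.coe_coe,
        aeval_bind₁]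
  refine ⟨j, Φ r, ?_, ?_, ?_⟩
  · intro m a
    have e1 : s + r * (m + 1) = s + r * m + r := by ring
    rw [e1, hcomp]
  · intro m a
    have h1 := congrFun (hcls 0 m) a
    have h2 : Ideal.Quotient.mk (Ideal.span {π}) (X (s + r * m) a) =
        Ideal.Quotient.mk (Ideal.span {π}) (X s a) := h1
    rw [Ideal.Quotient.eq, Ideal.mem_span_singleton] at h2
    obtain ⟨z, hz⟩ := h2
    refine ⟨z, ?_⟩
    rw [mul_zero, add_zero, ← hz]
    ring
  · intro m
    have h1 := hcls 0 m
    have h2 : res π (X (s + r * m)) = res π (X s) := h1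
    rw [res_val_congr _ h2]
    exact hj

end Pool.Agent.J6H86.LH
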