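import Pool.Agent.J6H86.LH.Contr

set_option autoImplicit false

/-! Greedy bases in a sequence of vectors and their determinants. -/

namespace Pool.Agent.J6H86.LH

open Submodule

variable {K : Type*} [Field K] {ι : Type*} [Fintype ι]

/-- the indices where the span grows -/
def Jset (w : ℕ → ι → K) : Set ℕ := {m | w m ∉ span K (w '' Set.Iio m)}

omit [Fintype ι] in
lemma Iio_succ (m : ℕ) : Set.Iio (m + 1) = insert m (Set.Iio m) := by
  ext x
  simp only [Set.mem_Iio, Set.mem_insert_iff]
  omega

omit [Fintype ι] in
lemma span_J (w : ℕ → ι → K) (m : ℕ) :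
    span K (w '' (Jset w ∩ Set.Iio m)) = span K (w '' Set.Iio m) := by
  induction m with
  | zero =>
    have : Set.Iio 0 = (∅ : Set ℕ) := by ext x; simp
    rw [this, Set.inter_empty]
  | succ m ih =>
    rw [Iio_succ]
    by_cases hm : m ∈ Jset w
    · rw [Set.inter_insert_of_mem hm, Set.image_insert_eq, Set.image_insert_eq, span_insert,
        span_insert, ih]
    · rw [Set.inter_insert_of_notMem hm, ih, Set.image_insert_eq, span_insert]
      have hm' : w m ∈ span K (w '' Set.Iio m) := not_not.1 hm
      rw [sup_eq_right.2]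
      rwa [span_singleton_le_iff_mem]

omit [Fintype ι] in
lemma indep_J (w : ℕ → ι → K) (m : ℕ) : LinearIndepOn K w (Jset w ∩ Set.Iio m) := by
  induction m with
  | zero =>
    have : Set.Iio 0 = (∅ : Set ℕ) := by ext x; simp
    rw [this, Set.inter_empty]
    exact linearIndepOn_empty K w
  | succ m ih =>
    rw [Iio_succ]
    by_cases hm : m ∈ Jset w
    · rw [Set.inter_insert_of_mem hm]
      refine ih.insert ?_
      rw [span_J]
      exact hm
    · rwa [Set.inter_insert_of_notMem hm]

omit [Fintype ι] in
lemma indep_J' (w : ℕ → ι → K) : LinearIndepOn K w (Jset w) := by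
  refine linearIndepOn_of_finite _ fun t ht ft => ?_
  obtain ⟨n, hn⟩ := ft.bddAbove
  refine (indep_J w (n + 1)).mono fun x hx => ⟨ht hx, ?_⟩
  exact Nat.lt_succ_of_le (hn hx)

omit [Fintype ι] in
lemma span_J' (w : ℕ → ι → K) : span K (w '' Jset w) = span K (Set.range w) := by
  apply le_antisymm
  · exact span_mono (Set.image_subset_range _ _)
  · rw [span_le]
    rintro _ ⟨m, rfl⟩
    have h1 : w m ∈ span K (w '' Set.Iio (m + 1)) :=
      subset_span ⟨m, Nat.lt_succ_self m, rfl⟩
    rw [← span_J] at h1
    exact span_mono (Set.image_mono Set.inter_subset_left) h1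

theorem exists_J (w : ℕ → ι → K) (hw : span K (Set.range w) = ⊤) :
    ∃ (J : Finset ℕ) (e : J ≃ ι),
      (Matrix.of fun (j j' : J) => w j (e j')).det ≠ 0 ∧
      ∀ w' : ℕ → ι → K, (∀ j, w' j - w j ∈ span K (w '' Set.Iio j)) →
        (Matrix.of fun (j j' : J) => w' j (e j')).det =
          (Matrix.of fun (j j' : J) => w j (e j')).det := by
  classical
  have hli := indep_J' w
  have hfin : (Jset w).Finite := by
    have h1 : LinearIndependent K (fun x : Jset w => w x) := hli
    have := h1.finite
    exact Set.toFinite _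
  have hli2 : LinearIndependent K (fun x : Jset w => w x) := hli
  have hsp : ⊤ ≤ span K (Set.range fun x : Jset w => w x) := by
    rw [← Set.image_eq_range, span_J', hw]
  let J : Finset ℕ := hfin.toFinset
  have hJ : ∀ m, m ∈ J ↔ m ∈ Jset w := fun m => hfin.mem_toFinset
  have : Fintype (Jset w) := hfin.fintype
  have hcard : Fintype.card J = Fintype.card ι := by
    let b : Module.Basis (Jset w) K (ι → K) := Module.Basis.mk hli2 hsp
    have h1 : Module.finrank K (ι → K) = Fintype.card (Jset w) :=
      Module.finrank_eq_card_basis b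
    rw [Module.finrank_fintype_fun_eq_card] at h1
    rw [h1]
    exact Fintype.card_congr (Equiv.subtypeEquivRight hJ)
  let e : J ≃ ι := Fintype.equivOfCardEq hcard
  refine ⟨J, e, ?_, ?_⟩
  · have h2 : LinearIndependent K
        (Matrix.of fun (j j' : J) => w j (e j')).row := by
      have h3 : LinearIndependent K (fun x : J => w x) :=
        hli2.comp (fun x : J => (⟨x, (hJ x).1 x.2⟩ : Jset w)) fun x y h => by
          have := congrArg Subtype.val h
          exact Subtype.ext this
      have h4 := h3.map' (LinearEquiv.funCongrLeft K K e).toLinearMap (LinearEquiv.ker _)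
      exact h4
    rw [Matrix.linearIndependent_rows_iff_isUnit, Matrix.isUnit_iff_isUnit_det] at h2
    exact h2.ne_zero
  · intro w' hw'
    have h1 : ∀ j : J, ∃ c : ℕ → K, (∀ i, ¬ i < (j : ℕ) → c i = 0) ∧
        w' j = w j + ∑ i : J, c i • w i := by
      intro j
      have h2 := hw' j
      rw [← span_J] at h2
      have hs : Jset w ∩ Set.Iio (j : ℕ) = ((J.filter (· < (j : ℕ)) : Finset ℕ) : Set ℕ) := by
        ext x
        simp [hJ]
      rw [hs, Submodule.mem_span_image_finset_iff_exists_fun'] at h2
      obtain ⟨c, hc⟩ := h2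
      refine ⟨fun i => if i < (j : ℕ) then c i else 0, fun i hi => if_neg hi, ?_⟩
      rw [Finset.sum_coe_sort J (fun i => (if i < (j : ℕ) then c i else 0) • w i)]
      have h3 : ∑ i ∈ J, (if i < (j : ℕ) then c i else 0) • w i =
          ∑ i ∈ J.filter (· < (j : ℕ)), c i • w i := by
        rw [Finset.sum_filter]
        refine Finset.sum_congr rfl fun i _ => ?_
        split_ifs <;> simp
      rw [h3, hc]
      simp
    choose c hc0 hc using h1
    let U : Matrix J J K := 1 + Matrix.of fun (j i : J) => c j (i : ℕ)
    have hU : (Matrix.of fun (j j' : J) => w' j (e j')) =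
        U * (Matrix.of fun (j j' : J) => w j (e j')) := by
      simp only [U]
      rw [Matrix.add_mul, Matrix.one_mul]
      ext j j'
      rw [Matrix.add_apply, Matrix.mul_apply]
      simp only [Matrix.of_apply]
      rw [hc j]
      simp [Finset.sum_apply]
    have hUdet : U.det = 1 := by
      rw [Matrix.det_of_isLowerTriangular]
      · apply Finset.prod_eq_one
        intro j _
        simp [U, hc0 j j (lt_irrefl _)]
      · intro i j hij
        have hij' : (i : ℕ) < j := hij
        have h1 : i ≠ j := fun h => absurd hij' (by rw [h]; exact lt_irrefl _)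
        simp only [U, Matrix.add_apply, Matrix.one_apply_ne h1, Matrix.of_apply, zero_add]
        exact hc0 i j (by omega)
    rw [hU, Matrix.det_mul, hUdet, one_mul]

omit [Fintype ι] in
lemma E_mem (w : ℕ → ι → K) (t : ℕ) (ht : 0 < t) (n : ℕ) :
    ∀ m, (E t)^[n] w m - w (m + 2 * t * n) ∈ span K (w '' Set.Iio (m + 2 * t * n)) := by
  induction n with
  | zero => intro m; simp
  | succ n ih =>
    intro m
    rw [Function.iterate_succ_apply']
    have h1 : E t ((E t)^[n] w) m = (E t)^[n] w (m + 2 * t) - (E t)^[n] w (m + t) := rfl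
    have h2 := ih (m + 2 * t)
    have h3 := ih (m + t)
    have e1 : m + 2 * t + 2 * t * n = m + 2 * t * (n + 1) := by ring
    rw [e1] at h2
    have h4 : (E t)^[n] w (m + t) ∈ span K (w '' Set.Iio (m + 2 * t * (n + 1))) := by
      have h5 : w (m + t + 2 * t * n) ∈ span K (w '' Set.Iio (m + 2 * t * (n + 1))) := by
        apply subset_span
        refine ⟨_, ?_, rfl⟩
        change m + t + 2 * t * n < m + 2 * t * (n + 1)
        have : m + 2 * t * (n + 1) = m + 2 * t + 2 * t * n := by ring
        omega
      have h6 : span K (w '' Set.Iio (m + t + 2 * t * n)) ≤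
          span K (w '' Set.Iio (m + 2 * t * (n + 1))) := by
        apply span_mono
        apply Set.image_mono
        apply Set.Iio_subset_Iio
        have : m + 2 * t * (n + 1) = m + 2 * t + 2 * t * n := by ring
        omega
      have := add_mem (h6 h3) h5
      simpa using this
    rw [h1]
    have h5 := sub_mem h2 h4
    have e2 : (E t)^[n] w (m + 2 * t) - (E t)^[n] w (m + t) - w (m + 2 * t * (n + 1)) =
        (E t)^[n] w (m + 2 * t) - w (m + 2 * t * (n + 1)) - (E t)^[n] w (m + t) := by abel
    rw [e2]
    exact h5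

end Pool.Agent.J6H86.LH
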