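import Pool.Agent.J6H86.LH.Alg

set_option autoImplicit false

/-! Algebraic relations between the index and ratios of sequences. -/

namespace Pool.Agent.J6H86.LH

open MvPolynomial Finset

variable {K : Type*} [Field K]

open scoped Polynomial Polynomial.Bivariate in
lemma rel_of_not_ind [CharZero K] (a b : ℕ → K) (N D : ℕ) (p : Fin N × Fin (D + 1) → K)
    (hp : ∀ m, ∑ x, p x * wvec a b N D m x = 0) (hp0 : p ≠ 0) :
    ∃ R : K[X][Y], R ≠ 0 ∧ ∀ m : ℕ, a m ≠ 0 → R.evalEval (m : K) (b m / a m) = 0 := by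
  classical
  choose P hP hP0 using fun i : Fin (D + 1) => exists_poly (fun k : Fin N => p (k, i))
  obtain ⟨i₀, hi₀⟩ : ∃ i, P i ≠ 0 := by
    by_contra h
    push Not at h
    apply hp0
    funext x
    exact congrFun (hP0 x.2 (h x.2)) x.1
  refine ⟨∑ i, Polynomial.C (P i) * Polynomial.X ^ (i : ℕ), ?_, fun m ha => ?_⟩
  · intro h
    apply hi₀
    have h1 := congrArg (fun R => Polynomial.coeff R (i₀ : ℕ)) h
    simp only [Polynomial.finsetSum_coeff, Polynomial.coeff_C_mul, Polynomial.coeff_X_pow,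
      Polynomial.coeff_zero] at h1
    rw [Finset.sum_eq_single i₀] at h1
    · simpa using h1
    · intro i _ hi
      rw [if_neg (fun h => hi (Fin.ext h.symm)), mul_zero]
    · intro h3
      exact absurd (mem_univ _) h3
  · rw [Polynomial.evalEval_finsetSum]
    have h1 : ∀ i : Fin (D + 1), Polynomial.evalEval (m : K) (b m / a m)
        (Polynomial.C (P i) * Polynomial.X ^ (i : ℕ)) = (P i).eval (m : K) * (b m / a m) ^ (i : ℕ) := by
      intro i
      rw [Polynomial.evalEval_mul, Polynomial.evalEval_C, Polynomial.evalEval_pow,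
        Polynomial.evalEval_X]
    rw [sum_congr rfl fun i _ => h1 i]
    have h2 : a m ^ D * ∑ i : Fin (D + 1), (P i).eval (m : K) * (b m / a m) ^ (i : ℕ) = 0 := by
      rw [← hp m, Fintype.sum_prod_type_right, mul_sum]
      refine sum_congr rfl fun i _ => ?_
      rw [hP, sum_mul, mul_sum]
      refine sum_congr rfl fun k _ => ?_
      simp only [wvec]
      have h3 : a m ^ D = a m ^ (D - (i : ℕ)) * a m ^ (i : ℕ) := by
        rw [← pow_add]; congr 1; omega
      rw [h3, div_pow]
      field_simp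
    exact (mul_eq_zero.1 h2).resolve_left (pow_ne_zero _ ha)

open scoped Polynomial Polynomial.Bivariate in
lemma eval_equivMv (R : K[X][Y]) (t u : K) :
    eval ![t, u] (Polynomial.Bivariate.equivMvPolynomial K R) = R.evalEval t u := by
  induction R using Polynomial.induction_on' with
  | add p q hp hq => rw [map_add, map_add, hp, hq, Polynomial.evalEval_add]
  | monomial n p =>
    rw [← Polynomial.C_mul_X_pow_eq_monomial, map_mul, map_mul, map_pow, map_pow,
      Polynomial.Bivariate.equivMvPolynomial_X, eval_X, Polynomial.evalEval_mul,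
      Polynomial.evalEval_C, Polynomial.evalEval_pow, Polynomial.evalEval_X]
    congr 1
    induction p using Polynomial.induction_on' with
    | add p q hp hq => rw [map_add, map_add, map_add, hp, hq, Polynomial.eval_add]
    | monomial m a =>
      rw [← Polynomial.C_mul_X_pow_eq_monomial, map_mul, map_mul, map_mul, map_pow, map_pow,
        map_pow, Polynomial.Bivariate.equivMvPolynomial_C_X,
        Polynomial.Bivariate.equivMvPolynomial_C_C, eval_C, eval_X]
      simp

lemma tail_dense (a b c : ℕ → K)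
    (H : ∀ Q : MvPolynomial (Fin 2) K, Q ≠ 0 → ∃ m, a m ≠ 0 ∧
      eval ![b m / a m, c m / a m] Q ≠ 0) (Q : MvPolynomial (Fin 2) K) (hQ : Q ≠ 0) (N₀ : ℕ) :
    ∃ m ≥ N₀, a m ≠ 0 ∧ eval ![b m / a m, c m / a m] Q ≠ 0 := by
  classical
  have hR : Q * ∏ n ∈ Finset.range N₀, (X 0 - C (b n / a n)) ≠ 0 := by
    apply mul_ne_zero hQ
    refine Finset.prod_ne_zero_iff.2 fun n _ h => ?_
    have h1 := congrArg (eval (fun _ => b n / a n + 1)) h
    simp at h1
  obtain ⟨m, h0, h1⟩ := H _ hR
  rw [map_mul, map_prod] at h1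
  refine ⟨m, ?_, h0, left_ne_zero_of_mul h1⟩
  by_contra hlt
  push Not at hlt
  apply right_ne_zero_of_mul h1
  apply Finset.prod_eq_zero (Finset.mem_range.2 hlt)
  simp

open scoped Polynomial Polynomial.Bivariate in
/-- Two ratios which are algebraic over the index are algebraically dependent. -/
theorem alg_dep [CharZero K] (a b c : ℕ → K) (R₁ R₂ : K[X][Y]) (h1 : R₁ ≠ 0) (h2 : R₂ ≠ 0)
    (e1 : ∀ m : ℕ, a m ≠ 0 → R₁.evalEval (m : K) (b m / a m) = 0)
    (e2 : ∀ m : ℕ, a m ≠ 0 → R₂.evalEval (m : K) (c m / a m) = 0) :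
    ∃ Q : MvPolynomial (Fin 2) K, Q ≠ 0 ∧ ∀ m, a m ≠ 0 →
      eval ![b m / a m, c m / a m] Q = 0 := by
  classical
  by_contra hcon
  push Not at hcon
  have H := tail_dense a b c hcon
  -- the prime ideal
  have hdisj : Disjoint ((⊥ : Ideal (ℕ → K)) : Set (ℕ → K)) (Mon a b c) := by
    rw [Set.disjoint_left]
    rintro f hf ⟨Q, hQ, N₀, h⟩
    obtain ⟨m, hm, ha, hq⟩ := H Q hQ N₀
    apply h m hm ha hq
    have : f = 0 := hf
    rw [this]
    rfl
  obtain ⟨𝔮, hprime, -, hq⟩ := Ideal.exists_le_prime_disjoint (⊥ : Ideal (ℕ → K)) _ hdisj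
  have hnot : ∀ f ∈ Mon a b c, Ideal.Quotient.mk 𝔮 f ≠ 0 := by
    intro f hf h
    rw [Ideal.Quotient.eq_zero_iff_mem] at h
    exact Set.disjoint_left.1 hq h hf
  let B := (ℕ → K) ⧸ 𝔮
  have : IsDomain B := Ideal.Quotient.isDomain 𝔮
  let ζ : ℕ → K := fun m => (m : K)
  have hpoly : ∀ (P : Polynomial K) (m : ℕ), (Polynomial.aeval ζ P : ℕ → K) m = P.eval (m : K) := by
    intro P m
    have h1 := Polynomial.aeval_algHom_apply (Pi.evalAlgHom K (fun _ : ℕ => K) m) ζ P
    rw [Pi.evalAlgHom_apply, Pi.evalAlgHom_apply] at h1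
    rw [← h1, Polynomial.coe_aeval_eq_eval]
  have hmv : ∀ (Q : MvPolynomial (Fin 2) K) (s : Fin 2 → ℕ → K) (m : ℕ),
      (aeval s Q : ℕ → K) m = eval (fun i => s i m) Q := by
    intro Q s m
    have h1 := comp_aeval_apply (Pi.evalAlgHom K (fun _ : ℕ => K) m) (f := s) Q
    rw [Pi.evalAlgHom_apply] at h1
    rw [h1, ← coe_aeval_eq_eval]
    rfl
  have key : ∀ (b : ℕ → K) (R : K[X][Y]), R ≠ 0 →
      (∀ m : ℕ, a m ≠ 0 → R.evalEval (m : K) (b m / a m) = 0) →
      IsAlgebraic (Algebra.adjoin K {(Ideal.Quotient.mk 𝔮 ζ : B)})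
        (Ideal.Quotient.mk 𝔮 (fun m => b m / a m) : B) := by
    intro b' R hR hrel0
    let β : ℕ → Algebra.adjoin K {(Ideal.Quotient.mk 𝔮 ζ : B)} := fun i =>
      ⟨Polynomial.aeval (Ideal.Quotient.mk 𝔮 ζ : B) (R.coeff i),
        Polynomial.aeval_mem_adjoin_singleton _ _⟩
    have hβ : ∀ i, (β i : B) = Ideal.Quotient.mk 𝔮 (Polynomial.aeval ζ (R.coeff i)) := by
      intro i
      have h1 := Polynomial.aeval_algHom_apply (Ideal.Quotient.mkₐ K 𝔮) ζ (R.coeff i)
      exact h1
    set D := R.natDegree with hD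
    refine ⟨∑ i ∈ Finset.range (D + 1), Polynomial.C (β i) * Polynomial.X ^ i, ?_, ?_⟩
    · intro h
      have h1 := congrArg (fun R => Polynomial.coeff R D) h
      simp only [Polynomial.finsetSum_coeff, Polynomial.coeff_C_mul, Polynomial.coeff_X_pow,
        Polynomial.coeff_zero] at h1
      rw [Finset.sum_eq_single D] at h1
      · rw [if_pos rfl, mul_one] at h1
        have h2 : (β D : B) = 0 := by rw [h1]; rfl
        rw [hβ] at h2
        refine hnot _ ?_ h2
        have hlead : R.coeff D ≠ 0 := by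
          rw [hD, Polynomial.coeff_natDegree]
          exact Polynomial.leadingCoeff_ne_zero.2 hR
        obtain ⟨N₀, hN₀⟩ := eventually_ne (R.coeff D) hlead
        refine ⟨1, one_ne_zero, N₀, fun m hm _ _ => ?_⟩
        rw [hpoly]
        exact hN₀ m hm
      · intro i _ hi
        rw [if_neg (fun h => hi h.symm), mul_zero]
      · intro h3
        exact absurd (Finset.mem_range.2 (Nat.lt_succ_self D)) h3
    · have hrel : a * ∑ i ∈ Finset.range (D + 1), Polynomial.aeval ζ (R.coeff i) *
          (fun m => b' m / a m) ^ i = 0 := by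
        funext m
        rw [Pi.mul_apply, Pi.zero_apply, Finset.sum_apply]
        by_cases ha : a m = 0
        · rw [ha, zero_mul]
        · have h2 : R.evalEval (m : K) (b' m / a m) = ∑ i ∈ Finset.range (D + 1),
              (Polynomial.aeval ζ (R.coeff i) * (fun m => b' m / a m) ^ i) m := by
            rw [Polynomial.evalEval, Polynomial.eval_eq_sum_range (p := R), Polynomial.eval_finsetSum]
            refine sum_congr rfl fun i _ => ?_
            rw [Pi.mul_apply, Pi.pow_apply, hpoly, Polynomial.eval_mul, Polynomial.eval_pow,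
              Polynomial.eval_C]
          rw [← h2, hrel0 m ha, mul_zero]
      have hrel2 := congrArg (Ideal.Quotient.mk 𝔮) hrel
      rw [map_mul, map_zero] at hrel2
      have ha : Ideal.Quotient.mk 𝔮 a ≠ 0 := hnot a ⟨1, one_ne_zero, 0, fun m _ h _ => h⟩
      have h3 := (mul_eq_zero.1 hrel2).resolve_left ha
      rw [map_sum]
      rw [map_sum] at h3
      refine Eq.trans (sum_congr rfl fun i _ => ?_) h3
      rw [map_mul, map_pow, Polynomial.aeval_C, Polynomial.aeval_X, map_mul, map_pow]
      congr 1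
      exact hβ i
  -- independence
  let s : Fin 2 → ℕ → K := ![fun m => b m / a m, fun m => c m / a m]
  have hind : AlgebraicIndependent K (fun i => (Ideal.Quotient.mk 𝔮 (s i) : B)) := by
    rw [algebraicIndependent_iff]
    intro Q hQ
    by_contra hQ0
    have h1 : (aeval (fun i => (Ideal.Quotient.mk 𝔮 (s i) : B)) Q : B) =
        Ideal.Quotient.mk 𝔮 (aeval s Q) := by
      have h2 := comp_aeval_apply (Ideal.Quotient.mkₐ K 𝔮) (f := s) Q
      exact h2.symm
    rw [h1] at hQ
    refine hnot _ ⟨Q, hQ0, 0, fun m _ _ hne => ?_⟩ hQ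
    rw [hmv]
    have h3 : (fun i => s i m) = ![b m / a m, c m / a m] := by
      funext i
      fin_cases i <;> rfl
    rw [h3]
    exact hne
  have hinj : Function.Injective (algebraMap K B) := (algebraMap K B).injective
  have : FaithfulSMul K B := (faithfulSMul_iff_algebraMap_injective K B).2 hinj
  -- the matroid argument
  have hset := hind.to_subtype_range
  set T : Set B := Set.range (fun i => (Ideal.Quotient.mk 𝔮 (s i) : B)) with hT
  have h1' : (AlgebraicIndependent.matroid K B).Indep T := hset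
  have hcl : T ⊆ (AlgebraicIndependent.matroid K B).closure {(Ideal.Quotient.mk 𝔮 ζ : B)} := by
    rw [AlgebraicIndependent.matroid_closure_eq]
    rintro _ ⟨i, rfl⟩
    fin_cases i
    · exact key b R₁ h1 e1
    · exact key c R₂ h2 e2
  have h2' := h1'.encard_le_eRk_of_subset hcl
  rw [Matroid.eRk_closure_eq] at h2'
  have h3 := h2'.trans (Matroid.eRk_le_encard _ _)
  rw [Set.encard_singleton] at h3
  have h4 : T.encard = 2 := by
    rw [hT, ← Set.image_univ, hind.injective.injOn.encard_image, Set.encard_univ]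
    simp
  rw [h4] at h3
  exact absurd h3 (by decide)

end Pool.Agent.J6H86.LH
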